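import Pool.Agent.K1H39.TS.Rat

set_option autoImplicit false

/-!
# 3SUM-Indexing: the choice of the parameters
-/

namespace Pool.Agent.K1H39.TS

open Finset
open Pool.Agent.R563.TP (sg SumDS)
open Pool.Agent.W964.Si (Alg)
open scoped Classical

/-- For all arrays of `n` integers from `{0, …, n ^ 2}` and all `z`, the random data structure
`D` (with probabilities `p`) decides with at most `t` probes whether `z` is the sum of an element of the
first array and an element of the second array, correctly with probability at least `1 / 2 + δ`. -/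
def Solves {n S W : ℕ} {Ω : Type} [Fintype Ω] (p : Ω → ℝ) (D : Ω → SumDS n S W) (t : ℕ)
    (δ : ℝ) : Prop :=
  (∀ ω, 0 ≤ p ω) ∧ ∑ ω, p ω = 1 ∧
    ∀ A₁ A₂ : Fin n → ℕ, (∀ i, A₁ i ≤ n ^ 2) → (∀ i, A₂ i ≤ n ^ 2) → ∀ z : ℕ,
      1 / 2 + δ ≤ ∑ ω with (((D ω).query z).out ((D ω).memory A₁ A₂) = true ↔
          ∃ i j, A₁ i + A₂ j = z) ∧
        ((D ω).query z).probes ((D ω).memory A₁ A₂) ≤ t, p ω

/-- a deterministic algorithm with an advantage -/
lemma derand {n S W k : ℕ} [NeZero k] (hn : 2 * k ≤ n) {Ω : Type} [Fintype Ω] (p : Ω → ℝ)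
    (D : Ω → SumDS n S W) (t : ℕ) (δ : ℝ) (hD : Solves p D t δ) :
    ∃ ω, 2 * δ * ((k : ℝ) * k) * ((k : ℝ) ^ k * 2 ^ k) ≤
      ∑ r : Fin k → ZMod k, ∑ β : ZMod k → Bool, ∑ i, ∑ g, sg (β (g - r i)) *
        val ((D ω).memory (arr1 n k r) (arr2 n k β)) t ((D ω).query (qz k i g)) := by
  obtain ⟨hp0, hp1, hgood⟩ := hD
  have key : ∀ (r : Fin k → ZMod k) (β : ZMod k → Bool) (i : Fin k) (g : ZMod k),
      2 * δ ≤ ∑ ω, p ω * (sg (β (g - r i)) *
        val ((D ω).memory (arr1 n k r) (arr2 n k β)) t ((D ω).query (qz k i g))) := by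
    intro r β i g
    have h1 := hgood (arr1 n k r) (arr2 n k β) (arr1_le hn r) (arr2_le hn β) (qz k i g)
    simp only [sum_iff hn r β i g] at h1
    have h2 : ∀ ω, p ω * (2 * (if ((((D ω).query (qz k i g)).out
          ((D ω).memory (arr1 n k r) (arr2 n k β)) = true ↔ β (g - r i) = true) ∧
        ((D ω).query (qz k i g)).probes ((D ω).memory (arr1 n k r) (arr2 n k β)) ≤ t)
          then (1 : ℝ) else 0) - 1) ≤ p ω * (sg (β (g - r i)) *
        val ((D ω).memory (arr1 n k r) (arr2 n k β)) t ((D ω).query (qz k i g))) := by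
      intro ω
      refine mul_le_mul_of_nonneg_left ?_ (hp0 ω)
      split_ifs with hc
      · obtain ⟨hc1, hc2⟩ := hc
        rw [val_of _ _ _ hc2, Bool.eq_iff_iff.2 hc1]
        unfold sg
        split_ifs <;> norm_num
      · have h3 := val_abs ((D ω).memory (arr1 n k r) (arr2 n k β)) t ((D ω).query (qz k i g))
        have h4 := sg_abs (β (g - r i))
        have h5 : |sg (β (g - r i)) *
          val ((D ω).memory (arr1 n k r) (arr2 n k β)) t ((D ω).query (qz k i g))| ≤ 1 := by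
          rw [abs_mul, h4, one_mul]
          exact h3
        have h6 := (abs_le.1 h5).1
        linarith
    refine le_trans ?_ (sum_le_sum fun ω _ => h2 ω)
    have h7 : ∑ ω, p ω * (2 * (if ((((D ω).query (qz k i g)).out
          ((D ω).memory (arr1 n k r) (arr2 n k β)) = true ↔ β (g - r i) = true) ∧
        ((D ω).query (qz k i g)).probes ((D ω).memory (arr1 n k r) (arr2 n k β)) ≤ t)
          then (1 : ℝ) else 0) - 1) = 2 * (∑ ω with ((((D ω).query (qz k i g)).out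
          ((D ω).memory (arr1 n k r) (arr2 n k β)) = true ↔ β (g - r i) = true) ∧
        ((D ω).query (qz k i g)).probes ((D ω).memory (arr1 n k r) (arr2 n k β)) ≤ t), p ω) -
          ∑ ω, p ω := by
      rw [sum_filter, mul_sum, ← sum_sub_distrib]
      refine sum_congr rfl fun ω _ => ?_
      split_ifs <;> ring
    rw [h7, hp1]
    linarith
  by_contra hcon
  push Not at hcon
  set E : Ω → ℝ := fun ω => ∑ r : Fin k → ZMod k, ∑ β : ZMod k → Bool, ∑ i, ∑ g,
    sg (β (g - r i)) *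
        val ((D ω).memory (arr1 n k r) (arr2 n k β)) t ((D ω).query (qz k i g)) with hE
  set c : ℝ := 2 * δ * ((k : ℝ) * k) * ((k : ℝ) ^ k * 2 ^ k) with hc
  have h1 : c ≤ ∑ ω, p ω * E ω := by
    have h2 : ∑ ω, p ω * E ω = ∑ r : Fin k → ZMod k, ∑ β : ZMod k → Bool, ∑ i : Fin k,
        ∑ g : ZMod k, ∑ ω, p ω * (sg (β (g - r i)) *
        val ((D ω).memory (arr1 n k r) (arr2 n k β)) t ((D ω).query (qz k i g))) := by
      simp only [hE, mul_sum]
      rw [sum_comm]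
      refine sum_congr rfl fun r _ => ?_
      rw [sum_comm]
      refine sum_congr rfl fun β _ => ?_
      rw [sum_comm]
      refine sum_congr rfl fun i _ => ?_
      rw [sum_comm]
    rw [h2]
    calc c = ∑ _r : Fin k → ZMod k, ∑ _β : ZMod k → Bool, ∑ _i : Fin k, ∑ _g : ZMod k,
          2 * δ := by
          simp only [sum_const, card_univ, nsmul_eq_mul, Fintype.card_fun, ZMod.card,
            Fintype.card_bool, Fintype.card_fin]
          push_cast
          rw [hc]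
          ring
      _ ≤ _ := sum_le_sum fun r _ => sum_le_sum fun β _ => sum_le_sum fun i _ =>
          sum_le_sum fun g _ => key r β i g
  have h3 : ∑ ω, p ω * E ω < c := by
    have h4 : ∃ ω ∈ (univ : Finset Ω), p ω * E ω < p ω * c := by
      by_contra hno
      push Not at hno
      have h5 : ∀ ω, p ω = 0 := by
        intro ω
        by_contra h6
        have h7 : 0 < p ω := lt_of_le_of_ne (hp0 ω) (Ne.symm h6)
        exact absurd (hno ω (mem_univ _)) (not_le.2 (mul_lt_mul_of_pos_left (hcon ω) h7))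
      have h8 : ∑ ω, p ω = 0 := sum_eq_zero fun ω _ => h5 ω
      rw [h8] at hp1
      norm_num at hp1
    have h5 : ∑ ω, p ω * E ω < ∑ ω, p ω * c :=
      sum_lt_sum (fun ω _ => mul_le_mul_of_nonneg_left (hcon ω).le (hp0 ω)) h4
    rwa [← sum_mul, hp1, one_mul] at h5
  linarith

/-- the root of `k` -/
lemma root {h k : ℕ} (hh : 1 ≤ h) (hk : 1 ≤ k) :
    ∃ j, 1 ≤ j ∧ j ≤ k ∧ k ≤ j ^ h ∧ j ^ h ≤ 2 ^ h * k := by
  have hex : ∃ j, k ≤ j ^ h := ⟨k, Nat.le_self_pow (by omega) k⟩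
  classical
  set j := Nat.find hex with hj
  have h1 : k ≤ j ^ h := Nat.find_spec hex
  have hj1 : 1 ≤ j := by
    by_contra hc
    have : j = 0 := by omega
    rw [this, zero_pow (by omega)] at h1
    omega
  refine ⟨j, hj1, Nat.find_min' hex (Nat.le_self_pow (by omega) k), h1, ?_⟩
  rcases Nat.lt_or_ge j 2 with h2 | h2
  · have : j = 1 := by omega
    rw [this, one_pow]
    exact Nat.mul_pos (by positivity) hk
  · have h3 : ¬ k ≤ (j - 1) ^ h := Nat.find_min hex (by omega)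
    calc j ^ h ≤ (2 * (j - 1)) ^ h := Nat.pow_le_pow_left (by omega) h
      _ = 2 ^ h * (j - 1) ^ h := by rw [mul_pow]
      _ ≤ _ := Nat.mul_le_mul_left _ (by omega)

/-- the bound before simplification of the logarithms -/
lemma pre {n S W h : ℕ} (hn : 2 ≤ n) (hh : 1 ≤ h) (hW : 1 ≤ W) {Ω : Type} [Fintype Ω]
    (p : Ω → ℝ) (D : Ω → SumDS n S W) (δ : ℝ) (hδ : 0 < δ) (hδ2 : δ ≤ 1 / 2)
    (hD : Solves p D (2 * h) δ) :
    δ ^ 2 * (n : ℝ) ^ (1 + 1 / (h : ℝ)) ≤ 576 * 8 ^ h * h *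
      Real.logb 2 (4 * n * (W : ℝ) ^ (2 * h) / δ) * (Nat.clog 2 (2 * (S * W + n)) : ℝ) *
        ((S : ℝ) + n) * (W : ℝ) ^ (4 * h + 1) := by
  set k := n / 2 with hk
  have hk1 : 1 ≤ k := by omega
  have hkn : 2 * k ≤ n := by omega
  have hk3 : n ≤ 3 * k := by omega
  have : NeZero k := ⟨by omega⟩
  obtain ⟨ω, hω⟩ := derand hkn p D (2 * h) δ hD
  obtain ⟨j, hj1, hjk, hj2, hj3⟩ := root hh hk1
  set l := (S * W + j) / j with hl
  have hl1 : 1 ≤ l := by
    rw [hl]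
    exact Nat.div_pos (by omega) (by omega)
  have hjl1 : j * l ≤ S * W + j := Nat.mul_div_le _ _
  have hjl2 : S * W + 1 ≤ j * l := by
    have := Nat.lt_mul_div_succ (S * W + j) (show 0 < j by omega)
    rw [← hl] at this
    rw [Nat.mul_add, Nat.mul_one] at this
    omega
  set Lg := Nat.clog 2 (2 * (S * W + n)) with hLg
  have hLg0 : 1 ≤ Lg := by
    rw [hLg]
    exact Nat.clog_pos (by norm_num) (by omega)
  set m := h * l * Lg with hm
  have hm0 : 1 ≤ m := Nat.mul_pos (Nat.mul_pos hh hl1) hLg0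
  set r' := Nat.log 2 m + 1 with hr'
  have hr1 : m ≤ 2 ^ r' := (Nat.lt_pow_succ_log_self (by norm_num) m).le
  have hr2 : 2 ^ r' ≤ 2 * m := by
    rw [hr', pow_succ]
    have := Nat.pow_log_le_self 2 (show m ≠ 0 by omega)
    omega
  have hX : ((2 * j * l).choose l) ^ h ≤ 2 ^ (2 ^ r') := by
    have h1 : 2 * j * l ≤ 2 ^ Lg := by
      calc 2 * j * l = 2 * (j * l) := by ring
        _ ≤ 2 * (S * W + n) := Nat.mul_le_mul_left _ (by omega)
        _ ≤ _ := Nat.le_pow_clog (by norm_num) _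
    calc ((2 * j * l).choose l) ^ h ≤ ((2 * j * l) ^ l) ^ h :=
          Nat.pow_le_pow_left (Nat.choose_le_pow _ _) h
      _ ≤ ((2 ^ Lg) ^ l) ^ h := Nat.pow_le_pow_left (Nat.pow_le_pow_left h1 l) h
      _ = 2 ^ m := by rw [← pow_mul, ← pow_mul, hm]; congr 1; ring
      _ ≤ _ := Nat.pow_le_pow_right (by norm_num) hr1
  have hkR : (1 : ℝ) ≤ k := by exact_mod_cast hk1
  have hWR : (1 : ℝ) ≤ W := by exact_mod_cast hW
  have hWp : (1 : ℝ) ≤ (W : ℝ) ^ (h + h) := one_le_pow₀ hWR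
  set κ : ℝ := Real.logb 2 (8 * k * (W : ℝ) ^ (h + h) / δ) with hκ
  have harg : 4 ≤ 8 * k * (W : ℝ) ^ (h + h) / δ := by
    rw [le_div_iff₀ hδ]
    nlinarith
  have hκ2 : 2 ≤ κ := by
    rw [hκ, Real.le_logb_iff_rpow_le (by norm_num) (by linarith)]
    norm_num
    exact harg
  have hκδ : 4 * (k : ℝ) * 2 ^ (2 - κ) ≤ (2 * δ) / (W : ℝ) ^ (h + h) := by
    have h1 : (2 : ℝ) ^ κ = 8 * k * (W : ℝ) ^ (h + h) / δ := by
      rw [hκ, Real.rpow_logb (by norm_num) (by norm_num) (by linarith)]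
    rw [Real.rpow_sub (by norm_num), h1]
    refine le_of_eq ?_
    have : (k : ℝ) ≠ 0 := by linarith
    have h2 : ((W : ℝ) ^ (h + h)) ≠ 0 := by linarith
    have h3 := hδ.ne'
    field_simp
    norm_num
  have hb := tree_bound hh hW (fun r β => (D ω).memory (arr1 n k r) (arr2 n k β))
    (fun i g => (D ω).query (qz k i g)) (2 * δ) (by linarith) (by linarith)
    (by rw [← two_mul h]; exact hω) j l r' hj1 hl1 hj2 hj3 hjl2 κ hκ2 (by omega) hX hκδ
  -- real numbers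
  have hjR : (1 : ℝ) ≤ j := by exact_mod_cast hj1
  have hlR : (1 : ℝ) ≤ l := by exact_mod_cast hl1
  have hhR : (1 : ℝ) ≤ h := by exact_mod_cast hh
  have hLgR : (1 : ℝ) ≤ Lg := by exact_mod_cast hLg0
  have hr2R : (2 : ℝ) ^ r' ≤ 2 * (h * l * Lg) := by
    have h1 : (2 : ℝ) ^ r' ≤ 2 * (m : ℝ) := by exact_mod_cast hr2
    rw [hm] at h1
    push_cast at h1
    exact h1
  have hjlR : (j : ℝ) * l ≤ (S + n) * W := by
    have h1 : (j : ℝ) * l ≤ S * W + j := by exact_mod_cast hjl1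
    have h2 : (j : ℝ) ≤ n := by
      have : j ≤ n := by omega
      exact_mod_cast this
    nlinarith
  have hW4 : (W : ℝ) ^ (4 * h) = ((W : ℝ) ^ (h + h)) ^ 2 := by
    rw [← pow_mul]; congr 1; ring
  have hW41 : (W : ℝ) ^ (4 * h + 1) = (W : ℝ) ^ (4 * h) * W := pow_succ _ _
  set w4 : ℝ := (W : ℝ) ^ (h + h) with hw4
  have hκ0 : 0 < κ := by linarith
  have h8 : (0 : ℝ) < 8 ^ h := by positivity
  have s1 : δ ^ 2 * (j * k) ≤ 64 * 8 ^ h * h * κ * Lg * ((S + n) * W) * w4 ^ 2 := by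
    have e1 : (2 * δ / w4) ^ 2 * (2 * k / 8 ^ h) ≤ 256 * κ * (2 * (h * l * Lg)) :=
      hb.trans (mul_le_mul_of_nonneg_left hr2R (by positivity))
    have e2 : (2 * δ / w4) ^ 2 * (2 * k / 8 ^ h) = 8 * δ ^ 2 * k / (w4 ^ 2 * 8 ^ h) := by
      have : w4 ≠ 0 := by linarith
      field_simp
      ring
    rw [e2, div_le_iff₀ (by positivity)] at e1
    have e3 : j * (8 * δ ^ 2 * k) ≤ j * (256 * κ * (2 * (h * l * Lg)) * (w4 ^ 2 * 8 ^ h)) :=
      mul_le_mul_of_nonneg_left e1 (by linarith)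
    have e4 : 256 * κ * (2 * (h * Lg)) * (w4 ^ 2 * 8 ^ h) * (j * l) ≤
        256 * κ * (2 * (h * Lg)) * (w4 ^ 2 * 8 ^ h) * ((S + n) * W) :=
      mul_le_mul_of_nonneg_left hjlR (by positivity)
    have e5 : j * (256 * κ * (2 * (h * l * Lg)) * (w4 ^ 2 * 8 ^ h)) =
        256 * κ * (2 * (h * Lg)) * (w4 ^ 2 * 8 ^ h) * (j * l) := by ring
    rw [e5] at e3
    have e6 := e3.trans e4
    have e7 : 8 * (δ ^ 2 * (j * k)) ≤ 8 * (64 * 8 ^ h * h * κ * Lg * ((S + n) * W) * w4 ^ 2) := by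
      calc 8 * (δ ^ 2 * (j * k)) = j * (8 * δ ^ 2 * k) := by ring
        _ ≤ _ := e6
        _ = _ := by ring
    linarith
  have s2 : κ ≤ Real.logb 2 (4 * n * (W : ℝ) ^ (2 * h) / δ) := by
    rw [hκ]
    apply Real.logb_le_logb_of_le (by norm_num) (by linarith)
    rw [two_mul h]
    apply div_le_div_of_nonneg_right _ hδ.le
    apply mul_le_mul_of_nonneg_right _ (by positivity)
    have : (2 * k : ℝ) ≤ n := by exact_mod_cast hkn
    linarith
  have s3 : (n : ℝ) ^ (1 + 1 / (h : ℝ)) ≤ 9 * (j * k) := by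
    have hkpos : (0 : ℝ) < k := by linarith
    have e1 : (n : ℝ) ≤ 3 * k := by exact_mod_cast hk3
    have e2 : (n : ℝ) ^ (1 + 1 / (h : ℝ)) ≤ (3 * k) ^ (1 + 1 / (h : ℝ)) :=
      Real.rpow_le_rpow (by positivity) e1 (by positivity)
    have e3 : (3 * (k : ℝ)) ^ (1 + 1 / (h : ℝ)) = 3 ^ (1 + 1 / (h : ℝ)) *
        ((k : ℝ) * (k : ℝ) ^ (1 / (h : ℝ))) := by
      rw [Real.mul_rpow (by norm_num) hkpos.le, Real.rpow_add hkpos, Real.rpow_one]
    have e4 : (3 : ℝ) ^ (1 + 1 / (h : ℝ)) ≤ 9 := by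
      calc (3 : ℝ) ^ (1 + 1 / (h : ℝ)) ≤ 3 ^ (2 : ℝ) := by
            apply Real.rpow_le_rpow_of_exponent_le (by norm_num)
            have : 1 / (h : ℝ) ≤ 1 := by
              rw [div_le_one (by linarith)]
              exact hhR
            linarith
        _ = 9 := by norm_num
    have e5 : (k : ℝ) ^ (1 / (h : ℝ)) ≤ j := by
      have f1 : (k : ℝ) ≤ (j : ℝ) ^ h := by exact_mod_cast hj2
      calc (k : ℝ) ^ (1 / (h : ℝ)) ≤ ((j : ℝ) ^ h) ^ (1 / (h : ℝ)) :=
            Real.rpow_le_rpow hkpos.le f1 (by positivity)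
        _ = j := by
            rw [← Real.rpow_natCast, ← Real.rpow_mul (by linarith), mul_one_div_cancel (by linarith),
              Real.rpow_one]
    calc (n : ℝ) ^ (1 + 1 / (h : ℝ)) ≤ (3 * k) ^ (1 + 1 / (h : ℝ)) := e2
      _ = 3 ^ (1 + 1 / (h : ℝ)) * ((k : ℝ) * (k : ℝ) ^ (1 / (h : ℝ))) := e3
      _ ≤ 9 * (k * j) := by
          gcongr
      _ = _ := by ring
  rw [hW41, hW4]
  calc δ ^ 2 * (n : ℝ) ^ (1 + 1 / (h : ℝ)) ≤ δ ^ 2 * (9 * (j * k)) :=
        mul_le_mul_of_nonneg_left s3 (by positivity)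
    _ = 9 * (δ ^ 2 * (j * k)) := by ring
    _ ≤ 9 * (64 * 8 ^ h * h * κ * Lg * ((S + n) * W) * w4 ^ 2) := by linarith
    _ ≤ 9 * (64 * 8 ^ h * h * Real.logb 2 (4 * n * (W : ℝ) ^ (2 * h) / δ) * Lg *
        ((S + n) * W) * w4 ^ 2) := by
        gcongr
    _ = _ := by ring

end Pool.Agent.K1H39.TS
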