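import Mathlib

set_option autoImplicit false

/-!
# The hard arrays

The first array consists of the numbers `i + k (r i)`, the second one of the numbers `k c`, `c < 2 k`,
with `β (c mod k)` true.
-/

namespace Pool.Agent.K1H39.TS

open Finset

/-- the first array -/
def arr1 (n k : ℕ) (r : Fin k → ZMod k) (t : Fin n) : ℕ :=
  if h : t.val < k then t.val + k * (r ⟨t.val, h⟩).val else n ^ 2

/-- the second array -/
def arr2 (n k : ℕ) (β : ZMod k → Bool) (t : Fin n) : ℕ :=
  if t.val < 2 * k ∧ β ((t.val : ℕ) : ZMod k) = true then k * t.val else n ^ 2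

/-- the query -/
def qz (k : ℕ) (i : Fin k) (g : ZMod k) : ℕ := i.val + k * (k + g.val)

lemma qz_lt {n k : ℕ} [NeZero k] (hn : 2 * k ≤ n) (i : Fin k) (g : ZMod k) :
    qz k i g < n ^ 2 := by
  have h1 := i.2
  have h2 : g.val < k := ZMod.val_lt g
  have h3 : k * (k + g.val + 1) ≤ k * (2 * k) := Nat.mul_le_mul_left _ (by omega)
  have h4 : (2 * k) * (2 * k) ≤ n * n := Nat.mul_le_mul hn hn
  unfold qz
  have h5 : 0 < k := by omega
  nlinarith

lemma arr1_le {n k : ℕ} [NeZero k] (hn : 2 * k ≤ n) (r : Fin k → ZMod k) (t : Fin n) :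
    arr1 n k r t ≤ n ^ 2 := by
  unfold arr1
  split_ifs with h
  · have h2 : (r ⟨t.val, h⟩).val < k := ZMod.val_lt _
    have h3 : k * ((r ⟨t.val, h⟩).val + 1) ≤ k * k := Nat.mul_le_mul_left _ (by omega)
    have h4 : (2 * k) * (2 * k) ≤ n * n := Nat.mul_le_mul hn hn
    nlinarith
  · exact le_rfl

lemma arr2_le {n k : ℕ} (hn : 2 * k ≤ n) (β : ZMod k → Bool) (t : Fin n) :
    arr2 n k β t ≤ n ^ 2 := by
  unfold arr2
  split_ifs with h
  · have h3 : k * t.val ≤ k * (2 * k) := Nat.mul_le_mul_left _ (by omega)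
    have h4 : (2 * k) * (2 * k) ≤ n * n := Nat.mul_le_mul hn hn
    nlinarith
  · exact le_rfl

lemma sum_iff {n k : ℕ} [NeZero k] (hn : 2 * k ≤ n) (r : Fin k → ZMod k) (β : ZMod k → Bool)
    (i : Fin k) (g : ZMod k) :
    (∃ t t', arr1 n k r t + arr2 n k β t' = qz k i g) ↔ β (g - r i) = true := by
  have hq := qz_lt hn i g
  have hk : 0 < k := Nat.pos_of_ne_zero (NeZero.ne k)
  constructor
  · rintro ⟨t, t', h⟩
    unfold arr1 arr2 at h
    split_ifs at h with h1 h2 <;> try omega
    unfold qz at h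
    have h3 : t.val + k * ((r ⟨t.val, h1⟩).val + t'.val) = i.val + k * (k + g.val) := by
      rw [← h]
      ring
    have h4 : t.val = i.val := by
      have := congrArg (· % k) h3
      simpa [Nat.add_mul_mod_self_left, Nat.mod_eq_of_lt h1, Nat.mod_eq_of_lt i.2] using this
    have e1 : (⟨t.val, h1⟩ : Fin k) = i := Fin.ext h4
    rw [e1] at h3
    have h5 : (r i).val + t'.val = k + g.val := by
      have h6 : k * ((r i).val + t'.val) = k * (k + g.val) := by omega
      exact Nat.eq_of_mul_eq_mul_left hk h6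
    have h6 : ((t'.val : ℕ) : ZMod k) = g - r i := by
      have h7 := congrArg (Nat.cast : ℕ → ZMod k) h5
      push_cast at h7
      rw [ZMod.natCast_zmod_val, ZMod.natCast_zmod_val, ZMod.natCast_self, zero_add] at h7
      rw [← h7]
      ring
    rw [h6] at h2
    exact h2.2
  · intro h
    have hg : g.val < k := ZMod.val_lt g
    have hr : (r i).val < k := ZMod.val_lt _
    have hi := i.2
    have hc : k + g.val - (r i).val < n := by omega
    refine ⟨⟨i.val, by omega⟩, ⟨k + g.val - (r i).val, hc⟩, ?_⟩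
    have h6 : ((k + g.val - (r i).val : ℕ) : ZMod k) = g - r i := by
      rw [Nat.cast_sub (by omega)]
      push_cast
      rw [ZMod.natCast_zmod_val, ZMod.natCast_zmod_val, ZMod.natCast_self, zero_add]
    unfold arr1 arr2 qz
    simp only
    rw [dif_pos i.2, if_pos ⟨by omega, by rw [h6]; exact h⟩]
    have h7 : (r i).val + (k + g.val - (r i).val) = k + g.val := by omega
    calc i.val + k * (r i).val + k * (k + g.val - (r i).val)
        = i.val + k * ((r i).val + (k + g.val - (r i).val)) := by ring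
      _ = _ := by rw [h7]

end Pool.Agent.K1H39.TS
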