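import Mathlib
import Pool.Agent.R563.TP.Stm

set_option autoImplicit false

/-!
# From decision trees to products of signs
-/

namespace Pool.Agent.K1H39.TS

open Finset
open Pool.Agent.R563.TP (sg)
open Pool.Agent.W964.Si (Alg)
open scoped Classical

variable {S W : ℕ}

/-- the sign of the answer, `0` if more than `t` cells are probed -/
noncomputable def val (mem : Fin S → Fin W) : ℕ → Alg S W Bool → ℝ
  | _, .answer o => sg o
  | 0, .probe _ _ => 0
  | t + 1, .probe c next => val mem t (next (mem c))

/-- the value without a probe -/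
noncomputable def val0 : Alg S W Bool → ℝ
  | .answer o => sg o
  | .probe _ _ => 0

lemma val0_abs (Q : Alg S W Bool) : |val0 Q| ≤ 1 := by
  cases Q with
  | answer o =>
    show |sg o| ≤ 1
    unfold sg
    split_ifs <;> norm_num
  | probe s nx =>
    show |(0 : ℝ)| ≤ 1
    norm_num

lemma val_zero (mem : Fin S → Fin W) (Q : Alg S W Bool) : val mem 0 Q = val0 Q := by
  cases Q <;> rfl

lemma val_of (mem : Fin S → Fin W) : ∀ (t : ℕ) (Q : Alg S W Bool), Q.probes mem ≤ t →
    val mem t Q = sg (Q.out mem)
  | _, .answer o, _ => by simp [val, Alg.out]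
  | 0, .probe c next, h => by
    simp only [Alg.probes] at h
    omega
  | t + 1, .probe c next, h => by
    simp only [Alg.probes] at h
    simp only [val, Alg.out]
    exact val_of mem t _ (by omega)

lemma val_abs (mem : Fin S → Fin W) : ∀ (t : ℕ) (Q : Alg S W Bool), |val mem t Q| ≤ 1
  | t, .answer o => by
    have : val mem t (.answer o) = sg o := by cases t <;> rfl
    rw [this]
    unfold sg
    split_ifs <;> norm_num
  | 0, .probe c next => by simp [val]
  | t + 1, .probe c next => by
    simp only [val]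
    exact val_abs mem t _

/-- the signs: the constant `1`, and for every cell and every value whether it is the contents -/
abbrev V (S W : ℕ) := Option (Fin S × Fin W)

/-- the value of a sign -/
noncomputable def xv (mem : Fin S → Fin W) : V S W → ℝ
  | none => 1
  | some (s, d) => if mem s = d then 1 else -1

lemma xv_sq (mem : Fin S → Fin W) (v : V S W) : xv mem v ^ 2 = 1 := by
  rcases v with _ | ⟨s, d⟩
  · simp [xv]
  · simp only [xv]
    split_ifs <;> norm_num

/-- the continuation -/
def nxt (d : Fin W) : Alg S W Bool → Alg S W Bool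
  | .answer o => .answer o
  | .probe _ nx => nx d

/-- a factor -/
noncomputable def lam : Alg S W Bool → ℝ
  | .answer _ => 1 / W
  | .probe _ _ => 1

/-- the sign -/
def sgn (d : Fin W) (b : Bool) : Alg S W Bool → V S W
  | .answer _ => none
  | .probe s _ => if b then some (s, d) else none

lemma lam_abs (hW : 1 ≤ W) (Q : Alg S W Bool) : |lam Q| ≤ 1 := by
  have hW' : (1 : ℝ) ≤ W := by exact_mod_cast hW
  cases Q with
  | answer o =>
    simp only [lam]
    rw [abs_of_nonneg (by positivity)]
    rw [div_le_one (by linarith)]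
    exact hW'
  | probe s nx => simp [lam]

lemma expand (hW : 1 ≤ W) (mem : Fin S → Fin W) (t : ℕ) (Q : Alg S W Bool) :
    val mem (t + 1) Q = ∑ p : Fin W × Bool,
      1 / 2 * (lam Q * xv mem (sgn p.1 p.2 Q) * val mem t (nxt p.1 Q)) := by
  have hW' : (W : ℝ) ≠ 0 := by
    have : (1 : ℝ) ≤ W := by exact_mod_cast hW
    linarith
  rw [Fintype.sum_prod_type]
  cases Q with
  | answer o =>
    have h1 : val mem t (.answer o : Alg S W Bool) = sg o := by cases t <;> rfl
    simp only [lam, sgn, xv, nxt, val, h1, Fintype.sum_bool]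
    rw [sum_const, card_univ, Fintype.card_fin, nsmul_eq_mul]
    field_simp
    ring
  | probe s nx =>
    simp only [lam, sgn, nxt, val, Fintype.sum_bool, if_true, Bool.false_eq_true, if_false, xv]
    rw [Finset.sum_eq_single (mem s)]
    · rw [if_pos rfl]
      ring
    · intro d _ hd
      rw [if_neg fun h => hd h.symm]
      ring
    · intro h
      exact absurd (mem_univ _) h

theorem path {Z Ω : Type} [Fintype Z] [Fintype Ω] (hW : 1 ≤ W) (mem : Ω → Fin S → Fin W) :
    ∀ (t : ℕ) (Q : Z → Alg S W Bool) (c : Ω → Z → ℝ) (Δ : ℝ),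
      Δ ≤ ∑ ω, ∑ z, c ω z * val (mem ω) t (Q z) →
      ∃ (σ : Z → ℝ) (v : Z → Fin t → V S W), (∀ z, |σ z| ≤ 1) ∧
        Δ / (W : ℝ) ^ t ≤ ∑ ω, ∑ z, c ω z * (σ z * ∏ j, xv (mem ω) (v z j)) := by
  have hW' : (0 : ℝ) < W := by
    have : (1 : ℝ) ≤ W := by exact_mod_cast hW
    linarith
  intro t
  induction t with
  | zero =>
    intro Q c Δ h
    refine ⟨fun z => val0 (Q z), fun _ j => j.elim0, ?_, ?_⟩
    · intro z
      exact val0_abs _
    · rw [pow_zero, div_one]
      refine h.trans (le_of_eq ?_)
      refine sum_congr rfl fun ω _ => sum_congr rfl fun z _ => ?_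
      rw [Fin.prod_univ_zero, mul_one, val_zero]
  | succ t ih =>
    intro Q c Δ h
    have h1 : ∑ ω, ∑ z, c ω z * val (mem ω) (t + 1) (Q z) =
        ∑ p : Fin W × Bool, 1 / 2 * ∑ ω, ∑ z,
          (c ω z * (lam (Q z) * xv (mem ω) (sgn p.1 p.2 (Q z)))) *
            val (mem ω) t (nxt p.1 (Q z)) := by
      simp only [mul_sum]
      symm
      rw [sum_comm]
      refine sum_congr rfl fun ω _ => ?_
      rw [sum_comm]
      refine sum_congr rfl fun z _ => ?_
      rw [expand hW, mul_sum]
      refine sum_congr rfl fun p _ => ?_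
      ring
    rw [h1] at h
    obtain ⟨p, hp⟩ : ∃ p : Fin W × Bool, Δ / W ≤ ∑ ω, ∑ z,
          (c ω z * (lam (Q z) * xv (mem ω) (sgn p.1 p.2 (Q z)))) *
            val (mem ω) t (nxt p.1 (Q z)) := by
      by_contra hcon
      push Not at hcon
      have hne : (univ : Finset (Fin W × Bool)).Nonempty :=
        ⟨(⟨0, hW⟩, true), mem_univ _⟩
      have h2 : ∑ p : Fin W × Bool, 1 / 2 * ∑ ω, ∑ z,
          (c ω z * (lam (Q z) * xv (mem ω) (sgn p.1 p.2 (Q z)))) *
            val (mem ω) t (nxt p.1 (Q z)) < ∑ _p : Fin W × Bool, 1 / 2 * (Δ / W) :=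
        sum_lt_sum_of_nonempty hne fun p _ => by
          have := hcon p
          linarith
      rw [sum_const, card_univ, Fintype.card_prod, Fintype.card_fin, Fintype.card_bool,
        nsmul_eq_mul] at h2
      push_cast at h2
      have h3 : (W : ℝ) * 2 * (1 / 2 * (Δ / W)) = Δ := by
        field_simp
      linarith
    obtain ⟨σ, v, hσ, hv⟩ := ih (fun z => nxt p.1 (Q z)) _ _ hp
    refine ⟨fun z => lam (Q z) * σ z, fun z => Fin.cons (sgn p.1 p.2 (Q z)) (v z), ?_, ?_⟩
    · intro z
      rw [abs_mul]
      exact mul_le_one₀ (lam_abs hW _) (abs_nonneg _) (hσ z)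
    · have h4 : Δ / (W : ℝ) ^ (t + 1) = Δ / W / (W : ℝ) ^ t := by
        rw [pow_succ, div_div]
        ring
      rw [h4]
      refine hv.trans (le_of_eq ?_)
      refine sum_congr rfl fun ω _ => sum_congr rfl fun z _ => ?_
      rw [Fin.prod_univ_succ]
      simp only [Fin.cons_zero, Fin.cons_succ]
      ring

end Pool.Agent.K1H39.TS
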