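import Pool.Agent.K1H39.TS.Main
import Pool.Agent.K1H39.TS.Tree
import Pool.Agent.K1H39.TS.Arr

set_option autoImplicit false

/-!
# Application of the bound to decision trees
-/

namespace Pool.Agent.K1H39.TS

open Finset
open Pool.Agent.R563.TP (sg)
open Pool.Agent.W964.Si (Alg)
open scoped Classical

lemma choose_id (N l : ℕ) (hl : 1 ≤ l) (hN : l + 1 ≤ N) :
    N.choose l * (l * (N - l)) = N * (N - 1) * (N - 2).choose (l - 1) := by
  obtain ⟨l', rfl⟩ : ∃ l', l = l' + 1 := ⟨l - 1, by omega⟩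
  obtain ⟨N', rfl⟩ : ∃ N', N = N' + 2 := ⟨N - 2, by omega⟩
  have h1 := Nat.add_one_mul_choose_eq (N' + 1) l'
  have h2 := Nat.choose_mul_succ_eq N' l'
  have e1 : N' + 2 - (l' + 1) = N' + 1 - l' := by omega
  have e2 : N' + 2 - 1 = N' + 1 := by omega
  have e3 : N' + 2 - 2 = N' := by omega
  have e4 : l' + 1 - 1 = l' := by omega
  rw [e1, e2, e3, e4]
  have e5 : N' + 1 + 1 = N' + 2 := rfl
  rw [e5] at h1
  calc (N' + 2).choose (l' + 1) * ((l' + 1) * (N' + 1 - l'))
      = ((N' + 2).choose (l' + 1) * (l' + 1)) * (N' + 1 - l') := by ring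
    _ = (N' + 2) * ((N' + 1).choose l' * (N' + 1 - l')) := by rw [← h1]; ring
    _ = _ := by rw [← h2]; ring

lemma ratio (j l : ℕ) (hj : 1 ≤ j) (hl : 1 ≤ l) :
    2 * j * (2 * j * l - 2).choose (l - 1) ≤ (2 * j * l).choose l ∧
      (2 * j * l).choose l ≤ 4 * j * (2 * j * l - 2).choose (l - 1) := by
  set N := 2 * j * l with hN
  have hjl : l ≤ j * l := Nat.le_mul_of_pos_left _ hj
  have hN2 : N = 2 * (j * l) := by rw [hN]; ring
  have h1 := choose_id N l hl (by omega)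
  set g := (N - 2).choose (l - 1) with hg
  set C := N.choose l with hC
  have h2 : C * (N - l) = 2 * j * ((N - 1) * g) := by
    have h3 : l * (C * (N - l)) = l * (2 * j * ((N - 1) * g)) := by
      calc l * (C * (N - l)) = C * (l * (N - l)) := by ring
        _ = N * (N - 1) * g := h1
        _ = 2 * j * l * (N - 1) * g := by rw [hN]
        _ = _ := by ring
    exact Nat.eq_of_mul_eq_mul_left hl h3
  constructor
  · have h3 : (N - 1) * (2 * j * g) ≤ (N - 1) * C := by
      calc (N - 1) * (2 * j * g) = C * (N - l) := by rw [h2]; ring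
        _ ≤ C * (N - 1) := Nat.mul_le_mul_left _ (by omega)
        _ = _ := by ring
    exact Nat.le_of_mul_le_mul_left h3 (by omega)
  · have h3 : N * C ≤ N * (4 * j * g) := by
      calc N * C ≤ 2 * (N - l) * C := Nat.mul_le_mul_right _ (by omega)
        _ = 2 * (C * (N - l)) := by ring
        _ = 2 * (2 * j * ((N - 1) * g)) := by rw [h2]
        _ = 4 * j * g * (N - 1) := by ring
        _ ≤ 4 * j * g * N := Nat.mul_le_mul_left _ (by omega)
        _ = _ := by ring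
    exact Nat.le_of_mul_le_mul_left h3 (by omega)

theorem tree_bound {h k S W : ℕ} [NeZero k] (hh : 1 ≤ h) (hW : 1 ≤ W)
    (mem : (Fin k → ZMod k) → (ZMod k → Bool) → Fin S → Fin W) (Q : Fin k → ZMod k → Alg S W Bool)
    (δ : ℝ) (hδ : 0 < δ) (hδ1 : δ ≤ 1)
    (hsum : δ * ((k : ℝ) * k) * ((k : ℝ) ^ k * 2 ^ k) ≤
      ∑ r, ∑ β, ∑ i, ∑ g, sg (β (g - r i)) * val (mem r β) (h + h) (Q i g))
    (j l r' : ℕ) (hj : 1 ≤ j) (hl : 1 ≤ l) (hj1 : k ≤ j ^ h) (hj2 : j ^ h ≤ 2 ^ h * k)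
    (hSW : S * W + 1 ≤ j * l) (κ : ℝ) (hκ : 2 ≤ κ) (hr' : 1 ≤ r')
    (hX : ((2 * j * l).choose l) ^ h ≤ 2 ^ (2 ^ r'))
    (hκδ : 4 * (k : ℝ) * 2 ^ (2 - κ) ≤ δ / (W : ℝ) ^ (h + h)) :
    (δ / (W : ℝ) ^ (h + h)) ^ 2 * (2 * k / 8 ^ h) ≤ 256 * κ * 2 ^ r' := by
  have hk : 0 < k := Nat.pos_of_ne_zero (NeZero.ne k)
  have hk' : (0 : ℝ) < k := by exact_mod_cast hk
  have hW' : (1 : ℝ) ≤ W := by exact_mod_cast hW
  set Z := Fin k × ZMod k with hZ
  set Ω := (Fin k → ZMod k) × (ZMod k → Bool) with hΩ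
  have hp := path hW (fun ω : Ω => mem ω.1 ω.2) (h + h) (fun z : Z => Q z.1 z.2)
    (fun ω z => sg (ω.2 (z.2 - ω.1 z.1))) (δ * ((k : ℝ) * k) * ((k : ℝ) ^ k * 2 ^ k)) (by
      refine hsum.trans (le_of_eq ?_)
      rw [Fintype.sum_prod_type]
      refine sum_congr rfl fun r _ => sum_congr rfl fun β _ => ?_
      rw [Fintype.sum_prod_type])
  obtain ⟨σ, v, hσ, hv⟩ := hp
  -- the variables
  have hcard : Fintype.card (V S W) ≤ Fintype.card (Fin (j * l)) := by
    rw [Fintype.card_option, Fintype.card_prod, Fintype.card_fin, Fintype.card_fin,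
      Fintype.card_fin]
    exact hSW
  obtain ⟨e⟩ := Function.Embedding.nonempty_of_card_le hcard
  have hUcard : Fintype.card (Fin (j * l) ⊕ Fin (j * l)) = 2 * j * l := by
    rw [Fintype.card_sum, Fintype.card_fin]
    ring
  set y : (Fin k → ZMod k) → (ZMod k → Bool) → Fin (j * l) → ℝ :=
    fun r β => Function.extend e (xv (mem r β)) (fun _ => 1) with hy
  have hy1 : ∀ r β u, y r β (e u) = xv (mem r β) u := by
    intro r β u
    exact e.injective.extend_apply _ _ _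
  have hy2 : ∀ r β u, y r β u ^ 2 = 1 := by
    intro r β u
    by_cases hu : ∃ v, e v = u
    · obtain ⟨v, rfl⟩ := hu
      rw [hy1]
      exact xv_sq _ _
    · rw [hy]
      simp only
      rw [Function.extend_apply' _ _ _ hu]
      norm_num
  set δ' : ℝ := δ / (W : ℝ) ^ (h + h) with hδ'
  have hWp : (1 : ℝ) ≤ (W : ℝ) ^ (h + h) := one_le_pow₀ hW'
  have hδ'0 : 0 < δ' := by positivity
  have hδ'1 : δ' ≤ 1 := by
    rw [hδ', div_le_one (by positivity)]
    linarith
  obtain ⟨hr1, hr2⟩ := ratio j l hj hl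
  set gN : ℕ := (2 * j * l - 2).choose (l - 1) with hgN
  set CN : ℕ := (2 * j * l).choose l with hCN
  have hjl : l ≤ j * l := Nat.le_mul_of_pos_left _ hj
  have h2jl : 2 * j * l = 2 * (j * l) := by ring
  have hCpos : 0 < CN := Nat.choose_pos (by omega)
  have hgpos : 0 < gN := Nat.choose_pos (by omega)
  have hC' : (0 : ℝ) < CN := by exact_mod_cast hCpos
  have hg' : (0 : ℝ) < gN := by exact_mod_cast hgpos
  have hj' : (0 : ℝ) < j := by exact_mod_cast hj
  set ρ : ℝ := 2 * ((gN : ℝ) / CN) ^ h * ((k : ℝ) * k) with hρdef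
  have hρ0 : 0 < ρ := by positivity
  have hcX : Fintype.card (X (Fin (j * l) ⊕ Fin (j * l)) h l) = CN ^ h := by
    rw [card_X, hUcard]
  have hj1' : (k : ℝ) ≤ (j : ℝ) ^ h := by exact_mod_cast hj1
  have hj2' : (j : ℝ) ^ h ≤ 2 ^ h * k := by exact_mod_cast hj2
  have hρk : ρ ≤ k := by
    have h1 : (gN : ℝ) / CN ≤ 1 / (2 * j) := by
      rw [div_le_div_iff₀ hC' (by positivity), one_mul]
      have : (2 * j * gN : ℝ) ≤ CN := by exact_mod_cast hr1
      linarith
    have h2 : ((gN : ℝ) / CN) ^ h ≤ 1 / (2 * k) := by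
      calc ((gN : ℝ) / CN) ^ h ≤ (1 / (2 * j)) ^ h := pow_le_pow_left₀ (by positivity) h1 h
        _ = 1 / (2 ^ h * (j : ℝ) ^ h) := by rw [div_pow, one_pow, mul_pow]
        _ ≤ 1 / (2 * k) := by
            apply one_div_le_one_div_of_le (by positivity)
            have h3 : (2 : ℝ) ≤ 2 ^ h := by
              calc (2 : ℝ) = 2 ^ 1 := by norm_num
                _ ≤ _ := pow_le_pow_right₀ (by norm_num) hh
            exact mul_le_mul h3 hj1' hk'.le (by positivity)
    calc ρ ≤ 2 * (1 / (2 * k)) * ((k : ℝ) * k) := by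
          rw [hρdef]
          gcongr
      _ = k := by
          field_simp
  have hρl : 2 * (k : ℝ) / 8 ^ h ≤ ρ := by
    have h1 : 1 / (4 * j) ≤ (gN : ℝ) / CN := by
      rw [div_le_div_iff₀ (by positivity) hC', one_mul]
      have : (CN : ℝ) ≤ 4 * j * gN := by exact_mod_cast hr2
      linarith
    have h2 : 1 / (8 ^ h * (k : ℝ)) ≤ ((gN : ℝ) / CN) ^ h := by
      calc 1 / (8 ^ h * (k : ℝ)) ≤ 1 / (4 ^ h * (j : ℝ) ^ h) := by
            apply one_div_le_one_div_of_le (by positivity)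
            have h8 : (8 : ℝ) ^ h = 4 ^ h * 2 ^ h := by
              rw [← mul_pow]; norm_num
            rw [h8, mul_assoc]
            exact mul_le_mul_of_nonneg_left hj2' (by positivity)
        _ = (1 / (4 * j)) ^ h := by rw [div_pow, one_pow, mul_pow]
        _ ≤ _ := pow_le_pow_left₀ (by positivity) h1 h
    calc 2 * (k : ℝ) / 8 ^ h = 2 * (1 / (8 ^ h * (k : ℝ))) * ((k : ℝ) * k) := by
          field_simp
      _ ≤ ρ := by
          rw [hρdef]
          gcongr
  have hcZ : Fintype.card (ZMod k) = k := ZMod.card k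
  have hv' : δ * ((k : ℝ) * k) * ((k : ℝ) ^ k * 2 ^ k) / (W : ℝ) ^ (h + h) ≤
      ∑ r : Fin k → ZMod k, ∑ β : ZMod k → Bool, ∑ i, ∑ g, sg (β (g - r i)) * σ (i, g) *
        ∏ j', (y r β (e (v (i, g) (Fin.castAdd h j'))) *
          y r β (e (v (i, g) (Fin.natAdd h j')))) := by
    refine hv.trans (le_of_eq ?_)
    rw [Fintype.sum_prod_type]
    refine sum_congr rfl fun r _ => sum_congr rfl fun β _ => ?_
    rw [Fintype.sum_prod_type]
    refine sum_congr rfl fun i _ => sum_congr rfl fun g _ => ?_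
    simp only [hy1]
    rw [Fin.prod_univ_add, prod_mul_distrib]
    ring
  have hfin := core (U := Fin (j * l) ⊕ Fin (j * l)) (I := Fin k) (G := ZMod k) (h := h) (l := l) hh hl
    (fun i g j' => Sum.inl (e (v (i, g) (Fin.castAdd h j'))))
    (fun i g j' => Sum.inr (e (v (i, g) (Fin.natAdd h j'))))
    (fun i g j' => by simp) (fun i g => σ (i, g)) (fun i g => hσ _)
    (fun r β => Sum.elim (y r β) (y r β))
    (by
      intro r β u
      rcases u with u | u
      · exact hy2 r β u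
      · exact hy2 r β u)
    δ' κ ρ r' hδ'0 hδ'1 hκ hr' (by rw [hcX]; exact hX) (by rw [hcX]; positivity) hρ0
    (by rw [hcZ]; exact hρk)
    (by
      rw [hcX, hUcard, hcZ, Fintype.card_fin, ← hgN, hρdef]
      push_cast
      rw [div_pow]
      field_simp)
    (by rw [hcZ]; exact hκδ)
    (by
      rw [hcZ, Fintype.card_fin]
      have e1 : δ' * ((k : ℝ) * k) * ((k : ℝ) ^ k * 2 ^ k) =
          δ * ((k : ℝ) * k) * ((k : ℝ) ^ k * 2 ^ k) / (W : ℝ) ^ (h + h) := by
        rw [hδ']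
        ring
      rw [e1]
      refine hv'.trans (le_of_eq ?_)
      refine sum_congr (Finset.ext fun _ => by simp only [Finset.mem_univ]) fun r _ => ?_
      exact sum_congr (Finset.ext fun _ => by simp only [Finset.mem_univ]) fun β _ => rfl)
  calc δ' ^ 2 * (2 * k / 8 ^ h) ≤ δ' ^ 2 * ρ := mul_le_mul_of_nonneg_left hρl (by positivity)
    _ ≤ _ := hfin

end Pool.Agent.K1H39.TS
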