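import Pool.Agent.K1H39.TS.Kik

set_option autoImplicit false

/-!
# Random shifts: the exponential moment
-/

namespace Pool.Agent.K1H39.TS

open Finset
open scoped Classical

variable {I G : Type} [Fintype I] [Fintype G] [AddCommGroup G]

lemma shift_sum (f : G → ℝ) (s : G) : ∑ g, f (g + s) = ∑ g, f g :=
  Equiv.sum_comp (Equiv.addRight s) f

/-- For a function `v` with the values `0` and `1` on `I × G` and random shifts `r i`, the sum of the
values at `(i, g + r i)` is rarely large. -/
lemma cher (v : I → G → ℝ) (hv : ∀ i g, v i g = 0 ∨ v i g = 1) (g : G) (m L : ℝ)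
    (hL : (∑ i, ∑ g, v i g) / Fintype.card G ≤ L) :
    ((univ.filter fun r : I → G => m < ∑ i, v i (g + r i)).card : ℝ) * 2 ^ m ≤
      (Fintype.card G : ℝ) ^ (Fintype.card I) * 2 ^ (2 * L) := by
  have hG : 0 < (Fintype.card G : ℝ) := by
    have : 0 < Fintype.card G := Fintype.card_pos_iff.2 ⟨0⟩
    exact_mod_cast this
  have e0 : ∀ i g, (2 : ℝ) ^ (v i g) = 1 + v i g := by
    intro i g
    rcases hv i g with h | h <;> rw [h]
    · rw [Real.rpow_zero]; norm_num
    · rw [Real.rpow_one]; norm_num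
  have e1 : ((univ.filter fun r : I → G => m < ∑ i, v i (g + r i)).card : ℝ) * 2 ^ m ≤
      ∑ r : I → G, (2 : ℝ) ^ (∑ i, v i (g + r i)) := by
    calc ((univ.filter fun r : I → G => m < ∑ i, v i (g + r i)).card : ℝ) * 2 ^ m
        = ∑ r ∈ univ.filter fun r : I → G => m < ∑ i, v i (g + r i), (2 : ℝ) ^ m := by
          rw [sum_const, nsmul_eq_mul]
      _ ≤ ∑ r ∈ univ.filter fun r : I → G => m < ∑ i, v i (g + r i),
          (2 : ℝ) ^ (∑ i, v i (g + r i)) := by
          refine sum_le_sum fun r hr => ?_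
          exact Real.rpow_le_rpow_of_exponent_le (by norm_num) (mem_filter.1 hr).2.le
      _ ≤ _ := by
          refine sum_le_sum_of_subset_of_nonneg (filter_subset _ _) fun r _ _ => ?_
          exact Real.rpow_nonneg (by norm_num) _
  have e2 : ∑ r : I → G, (2 : ℝ) ^ (∑ i, v i (g + r i)) =
      ∏ i, ∑ s, (1 + v i s) := by
    have : ∀ r : I → G, (2 : ℝ) ^ (∑ i, v i (g + r i)) = ∏ i, (1 + v i (g + r i)) := by
      intro r
      rw [Real.rpow_sum_of_pos (by norm_num)]
      exact prod_congr rfl fun i _ => e0 _ _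
    simp only [this]
    have h2 := Finset.prod_univ_sum (fun _ : I => (univ : Finset G))
      (fun i s => 1 + v i (g + s))
    rw [Fintype.piFinset_univ] at h2
    rw [← h2]
    refine prod_congr rfl fun i _ => ?_
    have := Equiv.sum_comp (Equiv.addLeft g) (fun s => 1 + v i s)
    simpa using this
  have e3 : ∏ i, ∑ s, (1 + v i s) ≤
      ∏ i, ((Fintype.card G : ℝ) * Real.exp ((∑ s, v i s) / Fintype.card G)) := by
    refine prod_le_prod (fun i _ => ?_) fun i _ => ?_
    · refine sum_nonneg fun s _ => ?_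
      rcases hv i s with h | h <;> rw [h] <;> norm_num
    · rw [sum_add_distrib, sum_const, nsmul_eq_mul, mul_one, card_univ]
      have := Real.add_one_le_exp ((∑ s, v i s) / (Fintype.card G : ℝ))
      calc (Fintype.card G : ℝ) + ∑ s, v i s
          = (Fintype.card G : ℝ) * ((∑ s, v i s) / Fintype.card G + 1) := by
            field_simp
            ring
        _ ≤ _ := mul_le_mul_of_nonneg_left this hG.le
  have e4 : ∏ i, ((Fintype.card G : ℝ) * Real.exp ((∑ s, v i s) / Fintype.card G)) =
      (Fintype.card G : ℝ) ^ (Fintype.card I) *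
        Real.exp ((∑ i, ∑ g, v i g) / Fintype.card G) := by
    rw [prod_mul_distrib, prod_const, card_univ, ← Real.exp_sum, sum_div]
  have e5 : Real.exp ((∑ i, ∑ g, v i g) / Fintype.card G) ≤ 2 ^ (2 * L) := by
    have h1 : Real.exp 1 ≤ 2 ^ (2 : ℝ) := by
      have := Real.exp_one_lt_d9
      norm_num
      linarith
    have h0 : 0 ≤ (∑ i, ∑ g, v i g) / (Fintype.card G : ℝ) := by
      refine div_nonneg (sum_nonneg fun i _ => sum_nonneg fun s _ => ?_) hG.le
      rcases hv i s with h | h <;> rw [h] <;> norm_num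
    calc Real.exp ((∑ i, ∑ g, v i g) / Fintype.card G)
        ≤ Real.exp (1 * L) := by
          rw [one_mul]
          exact Real.exp_le_exp.2 hL
      _ = (Real.exp 1) ^ L := by rw [Real.exp_mul]
      _ ≤ (2 ^ (2 : ℝ)) ^ L :=
          Real.rpow_le_rpow (Real.exp_pos _).le h1 (h0.trans hL)
      _ = _ := by rw [← Real.rpow_mul (by norm_num)]
  calc _ ≤ _ := e1
    _ = _ := e2
    _ ≤ _ := e3
    _ = _ := e4
    _ ≤ _ := mul_le_mul_of_nonneg_left e5 (by positivity)

end Pool.Agent.K1H39.TS
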