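import Pool.Agent.K1H39.TS.Cher
import Pool.Agent.R563.TP.Mom3

set_option autoImplicit false

/-!
# The advantage of products of memory bits

The queries are the pairs `(i, g)`, the right answer of `(i, g)` is the random sign
`β (g - r i)`; both `r` and `β` are random. A query is answered by the product of `2 h` signs, which
are functions of all the random data, but the positions of which are fixed.
-/

namespace Pool.Agent.K1H39.TS

open Finset
open Pool.Agent.R563.TP (sg mom)
open scoped Classical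

variable {U I G : Type} [Fintype U] [Fintype I] [Fintype G] [AddCommGroup G] {h l : ℕ}

/-- the sum of a row -/
noncomputable def Dg (a b : I → G → Fin h → U) (T : X U h l) : ℝ :=
  ∑ i, ∑ g, w (a i g) (b i g) T

/-- the part of a class in the sum of a row -/
noncomputable def dg (a b : I → G → Fin h → U) (r : I → G) (g : G) (T : X U h l) : ℝ :=
  ∑ i, w (a i (g + r i)) (b i (g + r i)) T

/-- the rows which are deleted -/
def Bad (a b : I → G → Fin h → U) (κ ρ : ℝ) (r : I → G) (T : X U h l) : Prop :=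
  ∃ g, κ * (1 + Dg a b T / ρ) < dg a b r g T

lemma Dg_nonneg (a b : I → G → Fin h → U) (T : X U h l) : 0 ≤ Dg a b T :=
  sum_nonneg fun _ _ => sum_nonneg fun _ _ => w_nonneg _ _ _

lemma dg_sum (a b : I → G → Fin h → U) (r : I → G) (T : X U h l) :
    ∑ g, dg a b r g T = Dg a b T := by
  unfold dg Dg
  rw [sum_comm]
  exact sum_congr rfl fun i _ => shift_sum (fun g => w (a i g) (b i g) T) (r i)

lemma bad_count (hh : 1 ≤ h) (a b : I → G → Fin h → U) (κ ρ : ℝ) (hρ : 0 < ρ)
    (hρG : ρ ≤ Fintype.card G) (hκ : 2 ≤ κ) (T : X U h l) :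
    ((univ.filter fun r : I → G => Bad a b κ ρ r T).card : ℝ) ≤
      Fintype.card G * 2 ^ (2 - κ) * (Fintype.card G : ℝ) ^ (Fintype.card I) := by
  set L : ℝ := 1 + Dg a b T / ρ with hL
  have hD := Dg_nonneg a b T
  have hL1 : 1 ≤ L := by
    rw [hL]
    have : 0 ≤ Dg a b T / ρ := div_nonneg hD hρ.le
    linarith
  have h1 : (univ.filter fun r : I → G => Bad a b κ ρ r T) ⊆
      univ.biUnion fun g : G => univ.filter fun r : I → G => κ * L < dg a b r g T := by
    intro r hr
    obtain ⟨g, hg⟩ := (mem_filter.1 hr).2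
    exact mem_biUnion.2 ⟨g, mem_univ _, mem_filter.2 ⟨mem_univ _, hg⟩⟩
  have h2 : ∀ g : G, ((univ.filter fun r : I → G => κ * L < dg a b r g T).card : ℝ) ≤
      2 ^ (2 - κ) * (Fintype.card G : ℝ) ^ (Fintype.card I) := by
    intro g
    have h3 := cher (fun i g => w (a i g) (b i g) T) (fun i g => w_zero_or hh _ _ _) g (κ * L) L
      (by
        have : (∑ i, ∑ g, w (a i g) (b i g) T) / (Fintype.card G : ℝ) ≤ Dg a b T / ρ := by
          exact div_le_div_of_nonneg_left hD hρ hρG
        rw [hL]
        linarith)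
    have h4 : (2 : ℝ) ^ (2 * L) ≤ 2 ^ (2 - κ) * 2 ^ (κ * L) := by
      rw [← Real.rpow_add (by norm_num)]
      apply Real.rpow_le_rpow_of_exponent_le (by norm_num)
      nlinarith
    have h5 : (0 : ℝ) < 2 ^ (κ * L) := Real.rpow_pos_of_pos (by norm_num) _
    refine le_of_mul_le_mul_right ?_ h5
    refine h3.trans ?_
    calc (Fintype.card G : ℝ) ^ (Fintype.card I) * 2 ^ (2 * L)
        ≤ (Fintype.card G : ℝ) ^ (Fintype.card I) * (2 ^ (2 - κ) * 2 ^ (κ * L)) :=
          mul_le_mul_of_nonneg_left h4 (by positivity)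
      _ = _ := by ring
  calc ((univ.filter fun r : I → G => Bad a b κ ρ r T).card : ℝ)
      ≤ ((univ.biUnion fun g : G => univ.filter fun r : I → G => κ * L < dg a b r g T).card : ℝ) :=
        by exact_mod_cast card_le_card h1
    _ ≤ ∑ g : G, ((univ.filter fun r : I → G => κ * L < dg a b r g T).card : ℝ) := by
        exact_mod_cast card_biUnion_le
    _ ≤ ∑ _g : G, 2 ^ (2 - κ) * (Fintype.card G : ℝ) ^ (Fintype.card I) :=
        sum_le_sum fun g _ => h2 g
    _ = _ := by
        rw [sum_const, nsmul_eq_mul, card_univ]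
        ring

/-- the matrix of a class, without the bad rows -/
noncomputable def Cm (a b : I → G → Fin h → U) (σ : I → G → ℝ) (κ ρ : ℝ) (r : I → G) (g : G)
    (T T' : X U h l) : ℝ :=
  if Bad a b κ ρ r T ∨ Bad a b κ ρ r T' then 0 else
    ∑ i, σ i (g + r i) * A (a i (g + r i)) (b i (g + r i)) T T'

lemma Cm_abs (a b : I → G → Fin h → U) (σ : I → G → ℝ) (hσ : ∀ i g, |σ i g| ≤ 1) (κ ρ : ℝ)
    (r : I → G) (g : G) (T : X U h l) :
    ∑ T', |Cm a b σ κ ρ r g T T'| ≤ if Bad a b κ ρ r T then 0 else dg a b r g T := by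
  split_ifs with hb
  · refine le_of_eq (sum_eq_zero fun T' _ => ?_)
    unfold Cm
    rw [if_pos (Or.inl hb), abs_zero]
  · have h1 : ∀ T', |Cm a b σ κ ρ r g T T'| ≤
        ∑ i, A (a i (g + r i)) (b i (g + r i)) T T' := by
      intro T'
      unfold Cm
      split_ifs
      · rw [abs_zero]
        exact sum_nonneg fun i _ => A_nonneg _ _ _ _
      · refine (abs_sum_le_sum_abs _ _).trans (sum_le_sum fun i _ => ?_)
        rw [abs_mul, abs_of_nonneg (A_nonneg _ _ _ _)]
        exact (mul_le_mul_of_nonneg_right (hσ _ _) (A_nonneg _ _ _ _)).trans (le_of_eq (one_mul _))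
    refine (sum_le_sum fun T' _ => h1 T').trans (le_of_eq ?_)
    rw [sum_comm]
    exact sum_congr rfl fun i _ => A_row _ _ _

lemma sg_abs (b : Bool) : |sg b| = 1 := by
  unfold sg
  split_ifs <;> norm_num

/-- the loss by the deletion -/
lemma lower (hl : 1 ≤ l) (a b : I → G → Fin h → U) (hab : ∀ i g j, a i g j ≠ b i g j)
    (σ : I → G → ℝ) (hσ : ∀ i g, |σ i g| ≤ 1) (κ ρ : ℝ) (r : I → G) (β : G → Bool)
    (x : U → ℝ) (hx : ∀ u, x u ^ 2 = 1) :
    2 * (((Fintype.card U - 2).choose (l - 1) : ℕ) : ℝ) ^ h *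
        (∑ i, ∑ g, sg (β (g - r i)) * σ i g * ∏ j, (x (a i g j) * x (b i g j))) -
      2 * ∑ T : X U h l, (if Bad a b κ ρ r T then Dg a b T else 0) ≤
    ∑ T : X U h l, ∑ T', cF x T * (∑ g, sg (β g) * Cm a b σ κ ρ r g T T') * cF x T' := by
  set P : ℝ := 2 * (((Fintype.card U - 2).choose (l - 1) : ℕ) : ℝ) ^ h with hP
  -- single terms
  have key : ∀ g i, sg (β g) * σ i (g + r i) * (P *
      ∏ j, (x (a i (g + r i) j) * x (b i (g + r i) j))) -
      2 * ∑ T : X U h l, (if Bad a b κ ρ r T then w (a i (g + r i)) (b i (g + r i)) T else 0) ≤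
      ∑ T : X U h l, ∑ T', sg (β g) * (if Bad a b κ ρ r T ∨ Bad a b κ ρ r T' then 0 else
        σ i (g + r i) * A (a i (g + r i)) (b i (g + r i)) T T') * (cF x T * cF x T') := by
    intro g i
    rw [hP, ← A_form hl x hx (a i (g + r i)) (b i (g + r i)) (fun j => hab _ _ j), mul_sum]
    have e1 : 2 * ∑ T : X U h l, (if Bad a b κ ρ r T then w (a i (g + r i)) (b i (g + r i)) T
        else 0) = ∑ T : X U h l, ∑ T', ((if Bad a b κ ρ r T then
          A (a i (g + r i)) (b i (g + r i)) T T' else 0) +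
          (if Bad a b κ ρ r T' then A (a i (g + r i)) (b i (g + r i)) T T' else 0)) := by
      simp only [sum_add_distrib]
      rw [sum_comm (f := fun T T' => if Bad a b κ ρ r T' then
        A (a i (g + r i)) (b i (g + r i)) T T' else 0)]
      have e2 : ∀ T : X U h l, ∑ T', (if Bad a b κ ρ r T then
          A (a i (g + r i)) (b i (g + r i)) T T' else 0) =
          if Bad a b κ ρ r T then w (a i (g + r i)) (b i (g + r i)) T else 0 := by
        intro T
        split_ifs
        · exact A_row _ _ _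
        · simp
      have e3 : ∀ T : X U h l, ∑ T', (if Bad a b κ ρ r T then
          A (a i (g + r i)) (b i (g + r i)) T' T else 0) =
          if Bad a b κ ρ r T then w (a i (g + r i)) (b i (g + r i)) T else 0 := by
        intro T
        rw [← e2]
        refine sum_congr rfl fun T' _ => ?_
        rw [A_symm _ _ (fun j => hab _ _ j)]
      simp only [e2, e3]
      ring
    rw [e1, ← sum_sub_distrib]
    refine sum_le_sum fun T _ => ?_
    rw [mul_sum, ← sum_sub_distrib]
    refine sum_le_sum fun T' _ => ?_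
    have hA := A_nonneg (a i (g + r i)) (b i (g + r i)) T T'
    have hcc : |cF x T * cF x T'| = 1 := by
      have h1 : (cF x T * cF x T') ^ 2 = 1 := by
        rw [mul_pow, cF_sq x hx, cF_sq x hx, mul_one]
      have h2 : |cF x T * cF x T'| ^ 2 = 1 := by rw [sq_abs, h1]
      nlinarith [abs_nonneg (cF x T * cF x T'), h2]
    have habs : |sg (β g) * σ i (g + r i) * (A (a i (g + r i)) (b i (g + r i)) T T' *
        (cF x T * cF x T'))| ≤ A (a i (g + r i)) (b i (g + r i)) T T' := by
      rw [abs_mul, abs_mul, abs_mul, sg_abs, hcc, one_mul, mul_one, abs_of_nonneg hA]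
      exact (mul_le_mul_of_nonneg_right (hσ _ _) hA).trans (le_of_eq (one_mul _))
    have hle := le_abs_self (sg (β g) * σ i (g + r i) * (A (a i (g + r i)) (b i (g + r i)) T T' *
        (cF x T * cF x T')))
    by_cases h1 : Bad a b κ ρ r T <;> by_cases h2 : Bad a b κ ρ r T'
    · simp only [h1, h2, if_true, or_self, mul_zero, zero_mul]
      linarith
    · simp only [h1, h2, if_true, if_false, true_or, mul_zero, zero_mul]
      linarith
    · simp only [h1, h2, if_true, if_false, or_true, mul_zero, zero_mul]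
      linarith
    · simp only [h1, h2, if_false, or_self]
      refine le_of_eq ?_
      ring
  have e4 : ∑ T : X U h l, ∑ T', cF x T * (∑ g, sg (β g) * Cm a b σ κ ρ r g T T') * cF x T' =
      ∑ g, ∑ i, ∑ T : X U h l, ∑ T', sg (β g) * (if Bad a b κ ρ r T ∨ Bad a b κ ρ r T' then 0 else
        σ i (g + r i) * A (a i (g + r i)) (b i (g + r i)) T T') * (cF x T * cF x T') := by
    have f1 : ∀ T T' : X U h l, cF x T * (∑ g, sg (β g) * Cm a b σ κ ρ r g T T') * cF x T' =
        ∑ g, ∑ i, sg (β g) * (if Bad a b κ ρ r T ∨ Bad a b κ ρ r T' then 0 else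
        σ i (g + r i) * A (a i (g + r i)) (b i (g + r i)) T T') * (cF x T * cF x T') := by
      intro T T'
      rw [mul_sum, sum_mul]
      refine sum_congr rfl fun g _ => ?_
      unfold Cm
      by_cases hb : Bad a b κ ρ r T ∨ Bad a b κ ρ r T'
      · simp only [if_pos hb, mul_zero, zero_mul, sum_const_zero]
      · simp only [if_neg hb]
        rw [mul_sum, mul_sum, sum_mul]
        refine sum_congr rfl fun i _ => ?_
        ring
    simp only [f1]
    rw [sum_congr rfl fun T _ => sum_comm, sum_comm]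
    refine sum_congr rfl fun g _ => ?_
    rw [sum_congr rfl fun T _ => sum_comm, sum_comm]
  rw [e4]
  have e5 : P * (∑ i, ∑ g, sg (β (g - r i)) * σ i g * ∏ j, (x (a i g j) * x (b i g j))) =
      ∑ g, ∑ i, sg (β g) * σ i (g + r i) * (P *
      ∏ j, (x (a i (g + r i) j) * x (b i (g + r i) j))) := by
    rw [sum_comm (f := fun g i => sg (β g) * σ i (g + r i) * (P *
      ∏ j, (x (a i (g + r i) j) * x (b i (g + r i) j)))), mul_sum]
    refine sum_congr rfl fun i _ => ?_
    rw [← shift_sum (fun g => sg (β (g - r i)) * σ i g * ∏ j, (x (a i g j) * x (b i g j))) (r i),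
      mul_sum]
    refine sum_congr rfl fun g _ => ?_
    rw [add_sub_cancel_right]
    ring
  have e6 : 2 * ∑ T : X U h l, (if Bad a b κ ρ r T then Dg a b T else 0) =
      ∑ g, ∑ i, 2 * ∑ T : X U h l,
        (if Bad a b κ ρ r T then w (a i (g + r i)) (b i (g + r i)) T else 0) := by
    have f1 : ∀ T : X U h l, (if Bad a b κ ρ r T then Dg a b T else 0) =
        ∑ g, ∑ i, (if Bad a b κ ρ r T then w (a i (g + r i)) (b i (g + r i)) T else 0) := by
      intro T
      split_ifs
      · rw [← dg_sum a b r T]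
        rfl
      · simp
    simp only [f1]
    rw [sum_comm, mul_sum]
    refine sum_congr rfl fun g _ => ?_
    rw [sum_comm, mul_sum]
  rw [e5, e6, ← sum_sub_distrib]
  refine sum_le_sum fun g _ => ?_
  rw [← sum_sub_distrib]
  exact sum_le_sum fun i _ => key g i

end Pool.Agent.K1H39.TS
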