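import Mathlib

set_option autoImplicit false

/-!
# Sets of a given size, and the moves between them (Kikuchi matrices)
-/

namespace Pool.Agent.K1H39.TS

open Finset
open scoped Classical

variable {U : Type} [Fintype U]

/-- the sets with `l` elements -/
abbrev Sl (U : Type) [Fintype U] (l : ℕ) := {T : Finset U // T.card = l}

/-- the entry of the matrix which replaces `u` by `v` -/
noncomputable def K {l : ℕ} (u v : U) (T T' : Sl U l) : ℝ :=
  if u ∈ T.1 ∧ v ∉ T.1 ∧ T'.1 = insert v (T.1.erase u) then 1 else 0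

/-- the sum of a row -/
noncomputable def mk {l : ℕ} (u v : U) (T : Sl U l) : ℝ :=
  if u ∈ T.1 ∧ v ∉ T.1 then 1 else 0

/-- the character of a set -/
noncomputable def ch {l : ℕ} (x : U → ℝ) (T : Sl U l) : ℝ := ∏ v ∈ T.1, x v

lemma K_nonneg {l : ℕ} (u v : U) (T T' : Sl U l) : 0 ≤ K u v T T' := by
  unfold K; split_ifs <;> norm_num

lemma mk_nonneg {l : ℕ} (u v : U) (T : Sl U l) : 0 ≤ mk u v T := by
  unfold mk; split_ifs <;> norm_num

lemma mk_zero_or {l : ℕ} (u v : U) (T : Sl U l) : mk u v T = 0 ∨ mk u v T = 1 := by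
  unfold mk; split_ifs
  · right; rfl
  · left; rfl

lemma mk_mul {l : ℕ} (u v : U) (T : Sl U l) : mk u v T * mk v u T = 0 := by
  unfold mk
  split_ifs with h1 h2 <;> simp
  exact absurd h1.1 h2.2

lemma move_symm {u v : U} {T T' : Finset U} (huv : u ≠ v)
    (h : u ∈ T ∧ v ∉ T ∧ T' = insert v (T.erase u)) :
    v ∈ T' ∧ u ∉ T' ∧ T = insert u (T'.erase v) := by
  obtain ⟨h1, h2, rfl⟩ := h
  refine ⟨mem_insert_self _ _, ?_, ?_⟩
  · intro h3
    rcases mem_insert.1 h3 with h3 | h3
    · exact huv h3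
    · exact (mem_erase.1 h3).1 rfl
  · have h3 : v ∉ T.erase u := fun h3 => h2 (mem_of_mem_erase h3)
    rw [erase_insert h3, insert_erase h1]

lemma K_symm {l : ℕ} {u v : U} (huv : u ≠ v) (T T' : Sl U l) : K u v T T' = K v u T' T := by
  unfold K
  by_cases h : u ∈ T.1 ∧ v ∉ T.1 ∧ T'.1 = insert v (T.1.erase u)
  · rw [if_pos h, if_pos (move_symm huv h)]
  · rw [if_neg h, if_neg]
    intro h'
    exact h (move_symm huv.symm h')

lemma K_row {l : ℕ} (u v : U) (T : Sl U l) : ∑ T', K u v T T' = mk u v T := by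
  unfold mk
  split_ifs with h
  · have hc : (insert v (T.1.erase u)).card = l := by
      have h3 : v ∉ T.1.erase u := fun h3 => h.2 (mem_of_mem_erase h3)
      rw [card_insert_of_notMem h3, card_erase_of_mem h.1, T.2]
      have : 0 < T.1.card := card_pos.2 ⟨u, h.1⟩
      rw [T.2] at this
      omega
    rw [Finset.sum_eq_single (⟨insert v (T.1.erase u), hc⟩ : Sl U l)]
    · unfold K
      rw [if_pos ⟨h.1, h.2, rfl⟩]
    · intro T' _ hT'
      unfold K
      rw [if_neg]
      rintro ⟨-, -, h3⟩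
      exact hT' (Subtype.ext h3)
    · intro h3
      exact absurd (mem_univ _) h3
  · refine Finset.sum_eq_zero fun T' _ => ?_
    unfold K
    rw [if_neg]
    rintro ⟨h1, h2, -⟩
    exact h ⟨h1, h2⟩

/-- the number of sets which contain `u`, but not `v` -/
lemma mk_sum {l : ℕ} (hl : 1 ≤ l) {u v : U} (huv : u ≠ v) :
    ∑ T : Sl U l, mk u v T = ((Fintype.card U - 2).choose (l - 1) : ℕ) := by
  unfold mk
  rw [Finset.sum_boole]
  congr 1
  have hc : ((univ.erase v).erase u : Finset U).card = Fintype.card U - 2 := by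
    rw [card_erase_of_mem (mem_erase.2 ⟨huv, mem_univ _⟩), card_erase_of_mem (mem_univ _),
      card_univ]
    omega
  rw [← hc, ← card_powersetCard]
  symm
  have key : ∀ R ∈ powersetCard (l - 1) ((univ.erase v).erase u : Finset U),
      u ∉ R ∧ v ∉ R ∧ (insert u R).card = l := by
    intro R hR
    rw [mem_powersetCard] at hR
    have h1 : u ∉ R := fun h => (mem_erase.1 (hR.1 h)).1 rfl
    have h2 : v ∉ R := fun h => (mem_erase.1 (mem_of_mem_erase (hR.1 h))).1 rfl
    refine ⟨h1, h2, ?_⟩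
    rw [card_insert_of_notMem h1, hR.2]
    omega
  refine Finset.card_bij (fun R hR => (⟨insert u R, (key R hR).2.2⟩ : Sl U l)) ?_ ?_ ?_
  · intro R hR
    rw [mem_filter]
    refine ⟨mem_univ _, mem_insert_self _ _, ?_⟩
    intro h
    rcases mem_insert.1 h with h | h
    · exact huv h.symm
    · exact (key R hR).2.1 h
  · intro R hR R' hR' h
    have h1 : insert u R = insert u R' := congrArg Subtype.val h
    rw [← erase_insert (key R hR).1, ← erase_insert (key R' hR').1, h1]
  · intro T hT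
    rw [mem_filter] at hT
    obtain ⟨-, h1, h2⟩ := hT
    refine ⟨T.1.erase u, ?_, ?_⟩
    · rw [mem_powersetCard]
      refine ⟨?_, ?_⟩
      · intro w hw
        rw [mem_erase] at hw
        rw [mem_erase, mem_erase]
        refine ⟨hw.1, ?_, mem_univ _⟩
        rintro rfl
        exact h2 hw.2
      · rw [card_erase_of_mem h1, T.2]
    · exact Subtype.ext (insert_erase h1)

/-- the product of the characters for a move -/
lemma K_ch {l : ℕ} {u v : U} (x : U → ℝ) (hx : ∀ w, x w ^ 2 = 1) (huv : u ≠ v)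
    (T T' : Sl U l) : K u v T T' * (ch x T * ch x T') = K u v T T' * (x u * x v) := by
  unfold K
  split_ifs with h
  · obtain ⟨h1, h2, h3⟩ := h
    unfold ch
    have h4 : v ∉ T.1.erase u := fun h => h2 (mem_of_mem_erase h)
    rw [h3, prod_insert h4, ← mul_prod_erase T.1 x h1]
    have h5 : (∏ w ∈ T.1.erase u, x w) ^ 2 = 1 := by
      rw [← prod_pow]
      exact prod_eq_one fun w _ => hx w
    rw [one_mul, one_mul]
    calc x u * (∏ w ∈ T.1.erase u, x w) * (x v * ∏ w ∈ T.1.erase u, x w)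
        = x u * x v * (∏ w ∈ T.1.erase u, x w) ^ 2 := by ring
      _ = _ := by rw [h5, mul_one]
  · simp

lemma ch_sq {l : ℕ} (x : U → ℝ) (hx : ∀ w, x w ^ 2 = 1) (T : Sl U l) : ch x T ^ 2 = 1 := by
  unfold ch
  rw [← prod_pow]
  exact prod_eq_one fun w _ => hx w

/-! ### Products -/

/-- the index set of the matrices -/
abbrev X (U : Type) [Fintype U] (h l : ℕ) := Fin h → Sl U l

variable {h l : ℕ}

/-- the matrix of the moves of all the sets -/
noncomputable def F (a b : Fin h → U) (T T' : X U h l) : ℝ := ∏ j, K (a j) (b j) (T j) (T' j)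

/-- the sum of a row -/
noncomputable def mF (a b : Fin h → U) (T : X U h l) : ℝ := ∏ j, mk (a j) (b j) (T j)

/-- the symmetric matrix -/
noncomputable def A (a b : Fin h → U) (T T' : X U h l) : ℝ := F a b T T' + F b a T T'

/-- the sum of a row of the symmetric matrix -/
noncomputable def w (a b : Fin h → U) (T : X U h l) : ℝ := mF a b T + mF b a T

/-- the character -/
noncomputable def cF (x : U → ℝ) (T : X U h l) : ℝ := ∏ j, ch x (T j)

lemma F_nonneg (a b : Fin h → U) (T T' : X U h l) : 0 ≤ F a b T T' :=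
  prod_nonneg fun _ _ => K_nonneg _ _ _ _

lemma A_nonneg (a b : Fin h → U) (T T' : X U h l) : 0 ≤ A a b T T' :=
  add_nonneg (F_nonneg _ _ _ _) (F_nonneg _ _ _ _)

lemma F_symm (a b : Fin h → U) (hab : ∀ j, a j ≠ b j) (T T' : X U h l) :
    F a b T T' = F b a T' T :=
  prod_congr rfl fun j _ => K_symm (hab j) _ _

lemma A_symm (a b : Fin h → U) (hab : ∀ j, a j ≠ b j) (T T' : X U h l) :
    A a b T T' = A a b T' T := by
  unfold A
  rw [F_symm a b hab T T', F_symm b a (fun j => (hab j).symm) T T', add_comm]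

lemma F_row (a b : Fin h → U) (T : X U h l) : ∑ T', F a b T T' = mF a b T := by
  unfold F mF
  have := Finset.prod_univ_sum (fun _ : Fin h => (univ : Finset (Sl U l)))
    (fun j S => K (a j) (b j) (T j) S)
  rw [Fintype.piFinset_univ] at this
  rw [← this]
  exact prod_congr rfl fun j _ => K_row _ _ _

lemma A_row (a b : Fin h → U) (T : X U h l) : ∑ T', A a b T T' = w a b T := by
  unfold A w
  rw [sum_add_distrib, F_row, F_row]

lemma mF_zero_or (a b : Fin h → U) (T : X U h l) : mF a b T = 0 ∨ mF a b T = 1 := by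
  by_cases hz : ∃ j, mk (a j) (b j) (T j) = 0
  · obtain ⟨j, hj⟩ := hz
    left
    exact prod_eq_zero (mem_univ j) hj
  · right
    push Not at hz
    exact prod_eq_one fun j _ => (mk_zero_or _ _ _).resolve_left (hz j)

lemma w_zero_or (hh : 1 ≤ h) (a b : Fin h → U) (T : X U h l) : w a b T = 0 ∨ w a b T = 1 := by
  have hm : mF a b T * mF b a T = 0 := by
    unfold mF
    rw [← prod_mul_distrib]
    exact prod_eq_zero (mem_univ (⟨0, hh⟩ : Fin h)) (mk_mul _ _ _)
  unfold w
  rcases mF_zero_or a b T with h1 | h1 <;> rcases mF_zero_or b a T with h2 | h2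
  · left; rw [h1, h2, add_zero]
  · right; rw [h1, h2, zero_add]
  · right; rw [h1, h2, add_zero]
  · rw [h1, h2] at hm; norm_num at hm

lemma w_nonneg (a b : Fin h → U) (T : X U h l) : 0 ≤ w a b T := by
  rw [← A_row]
  exact sum_nonneg fun _ _ => A_nonneg _ _ _ _

lemma mF_sum (hl : 1 ≤ l) (a b : Fin h → U) (hab : ∀ j, a j ≠ b j) :
    ∑ T : X U h l, mF a b T = (((Fintype.card U - 2).choose (l - 1) : ℕ) : ℝ) ^ h := by
  unfold mF
  have := Finset.prod_univ_sum (fun _ : Fin h => (univ : Finset (Sl U l)))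
    (fun j S => mk (a j) (b j) S)
  rw [Fintype.piFinset_univ] at this
  rw [← this, prod_congr rfl fun j _ => mk_sum hl (hab j), prod_const, card_univ,
    Fintype.card_fin]

lemma w_sum (hl : 1 ≤ l) (a b : Fin h → U) (hab : ∀ j, a j ≠ b j) :
    ∑ T : X U h l, w a b T = 2 * (((Fintype.card U - 2).choose (l - 1) : ℕ) : ℝ) ^ h := by
  unfold w
  rw [sum_add_distrib, mF_sum hl a b hab, mF_sum hl b a fun j => (hab j).symm]
  ring

lemma F_ch (x : U → ℝ) (hx : ∀ v, x v ^ 2 = 1) (a b : Fin h → U) (hab : ∀ j, a j ≠ b j)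
    (T T' : X U h l) :
    F a b T T' * (cF x T * cF x T') = F a b T T' * ∏ j, (x (a j) * x (b j)) := by
  unfold F cF
  rw [← prod_mul_distrib, ← prod_mul_distrib, ← prod_mul_distrib]
  exact prod_congr rfl fun j _ => K_ch x hx (hab j) _ _

lemma A_ch (x : U → ℝ) (hx : ∀ v, x v ^ 2 = 1) (a b : Fin h → U) (hab : ∀ j, a j ≠ b j)
    (T T' : X U h l) :
    A a b T T' * (cF x T * cF x T') = A a b T T' * ∏ j, (x (a j) * x (b j)) := by
  unfold A
  rw [add_mul, add_mul, F_ch x hx a b hab, F_ch x hx b a fun j => (hab j).symm]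
  congr 2
  exact prod_congr rfl fun j _ => mul_comm _ _

/-- the quadratic form of the symmetric matrix -/
lemma A_form (hl : 1 ≤ l) (x : U → ℝ) (hx : ∀ v, x v ^ 2 = 1) (a b : Fin h → U)
    (hab : ∀ j, a j ≠ b j) :
    ∑ T : X U h l, ∑ T', A a b T T' * (cF x T * cF x T') =
      2 * (((Fintype.card U - 2).choose (l - 1) : ℕ) : ℝ) ^ h * ∏ j, (x (a j) * x (b j)) := by
  simp only [A_ch x hx a b hab]
  simp only [← sum_mul, A_row]
  rw [w_sum hl a b hab]

lemma cF_sq (x : U → ℝ) (hx : ∀ v, x v ^ 2 = 1) (T : X U h l) : cF x T ^ 2 = 1 := by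
  unfold cF
  rw [← prod_pow]
  exact prod_eq_one fun j _ => ch_sq x hx _

lemma card_X : Fintype.card (X U h l) = ((Fintype.card U).choose l) ^ h := by
  rw [Fintype.card_fun, Fintype.card_fin]
  congr 1
  rw [Fintype.card_subtype, ← Finset.card_univ (α := U), ← card_powersetCard]
  congr 1
  ext T
  simp [mem_powersetCard]

end Pool.Agent.K1H39.TS
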