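import Pool.Agent.K1H39.TS.Fin

set_option autoImplicit false

/-!
# 3SUM-Indexing: the final form of the bound
-/

namespace Pool.Agent.K1H39.TS

open Finset
open Pool.Agent.R563.TP (SumDS)

theorem final {n S W h : ℕ} (hn : 2 ≤ n) (hh : 1 ≤ h) (hW : 1 ≤ W) {Ω : Type} [Fintype Ω]
    (p : Ω → ℝ) (D : Ω → SumDS n S W) (δ : ℝ) (hδ : 0 < δ) (hδ2 : δ ≤ 1 / 2)
    (hD : Solves p D (2 * h) δ) :
    δ ^ 2 * (n : ℝ) ^ (1 + 1 / (h : ℝ)) ≤ 4000 * 16 ^ h * (W : ℝ) ^ (4 * h + 1) *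
      ((S : ℝ) + n) * (Real.logb 2 (n / δ)) ^ 2 := by
  have hnR : (2 : ℝ) ≤ n := by exact_mod_cast hn
  have hWR : (1 : ℝ) ≤ W := by exact_mod_cast hW
  have hhR : (1 : ℝ) ≤ h := by exact_mod_cast hh
  have hSR : (0 : ℝ) ≤ S := Nat.cast_nonneg S
  set L : ℝ := Real.logb 2 (n / δ) with hL
  have h4 : 4 ≤ (n : ℝ) / δ := by
    rw [le_div_iff₀ hδ]
    nlinarith
  have hL2 : 2 ≤ L := by
    rw [hL, Real.le_logb_iff_rpow_le (by norm_num) (by linarith)]
    norm_num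
    exact h4
  have h16 : (1 : ℝ) ≤ 16 ^ h := one_le_pow₀ (by norm_num)
  have hLL : 1 ≤ L ^ 2 := by nlinarith
  have hlhs : δ ^ 2 * (n : ℝ) ^ (1 + 1 / (h : ℝ)) ≤ (n : ℝ) ^ 2 := by
    have h1 : (n : ℝ) ^ (1 + 1 / (h : ℝ)) ≤ (n : ℝ) ^ (2 : ℝ) := by
      apply Real.rpow_le_rpow_of_exponent_le (by linarith)
      have : 1 / (h : ℝ) ≤ 1 := by
        rw [div_le_one (by linarith)]
        exact hhR
      linarith
    have h2 : (n : ℝ) ^ (2 : ℝ) = (n : ℝ) ^ 2 := by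
      rw [← Real.rpow_natCast]; norm_num
    rw [h2] at h1
    have h3 : δ ^ 2 ≤ 1 := by nlinarith
    have h5 : 0 ≤ (n : ℝ) ^ (1 + 1 / (h : ℝ)) := Real.rpow_nonneg (by linarith) _
    nlinarith
  have hWp : (1 : ℝ) ≤ (W : ℝ) ^ (4 * h + 1) := one_le_pow₀ hWR
  have hSn : (1 : ℝ) ≤ (S : ℝ) + n := by linarith
  rcases le_or_gt ((n : ℝ) ^ 2) ((W : ℝ) ^ (4 * h + 1) * ((S : ℝ) + n)) with hA | hA
  · refine hlhs.trans (hA.trans ?_)
    have e1 : (W : ℝ) ^ (4 * h + 1) * ((S : ℝ) + n) * 1 ≤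
        (W : ℝ) ^ (4 * h + 1) * ((S : ℝ) + n) * (4000 * 16 ^ h * L ^ 2) := by
      apply mul_le_mul_of_nonneg_left _ (by positivity)
      nlinarith
    calc _ = (W : ℝ) ^ (4 * h + 1) * ((S : ℝ) + n) * 1 := by ring
      _ ≤ _ := e1
      _ = _ := by ring
  · have hW1 : (W : ℝ) ^ (4 * h + 1) < (n : ℝ) ^ 2 := by
      refine lt_of_le_of_lt ?_ hA
      nlinarith
    have hS1 : (S : ℝ) + n < (n : ℝ) ^ 2 := by
      refine lt_of_le_of_lt ?_ hA
      nlinarith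
    have hW2 : (W : ℝ) ^ (2 * h) ≤ n := by
      have e1 : ((W : ℝ) ^ (2 * h)) ^ 2 ≤ (n : ℝ) ^ 2 := by
        calc ((W : ℝ) ^ (2 * h)) ^ 2 = (W : ℝ) ^ (4 * h) := by
              rw [← pow_mul]; congr 1; ring
          _ ≤ (W : ℝ) ^ (4 * h + 1) := pow_le_pow_right₀ hWR (by omega)
          _ ≤ _ := hW1.le
      exact le_of_sq_le_sq e1 (by linarith)
    have hW3 : (W : ℝ) ≤ n := by
      refine le_trans ?_ hW2
      calc (W : ℝ) = (W : ℝ) ^ 1 := (pow_one _).symm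
        _ ≤ _ := pow_le_pow_right₀ hWR (by omega)
    have hp := pre hn hh hW p D δ hδ hδ2 hD
    have hk : Real.logb 2 (4 * n * (W : ℝ) ^ (2 * h) / δ) ≤ 3 * L := by
      have e1 : 3 * L = Real.logb 2 ((n / δ) ^ 3) := by
        rw [Real.logb_pow, hL]
        norm_num
      rw [e1]
      have hW0 : 0 < (W : ℝ) ^ (2 * h) := by positivity
      apply Real.logb_le_logb_of_le (by norm_num) (by positivity)
      rw [div_pow, div_le_div_iff₀ hδ (by positivity)]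
      have e2 : 4 * (n : ℝ) * (W : ℝ) ^ (2 * h) ≤ 4 * n * n :=
        mul_le_mul_of_nonneg_left hW2 (by positivity)
      have e3 : δ ^ 3 ≤ δ * (1 / 4) := by nlinarith [mul_pos hδ hδ]
      calc 4 * (n : ℝ) * (W : ℝ) ^ (2 * h) * δ ^ 3 ≤ 4 * n * n * (δ * (1 / 4)) := by
            gcongr
        _ = n ^ 2 * δ := by ring
        _ ≤ n ^ 3 * δ := by
            apply mul_le_mul_of_nonneg_right _ hδ.le
            exact pow_le_pow_right₀ (by linarith) (by norm_num)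
    have hc : (Nat.clog 2 (2 * (S * W + n)) : ℝ) ≤ 4 * L := by
      have e1 : (Nat.clog 2 (2 * (S * W + n)) : ℝ) ≤
          Real.logb 2 ((2 * (S * W + n) : ℕ) : ℝ) + 1 := by
        have h1 : (⌈Real.logb (2 : ℕ) ((2 * (S * W + n) : ℕ) : ℝ)⌉₊ : ℕ) =
          Nat.clog 2 (2 * (S * W + n)) := Real.natCeil_logb_natCast 2 (2 * (S * W + n))
        rw [← h1]
        have h2 : 0 ≤ Real.logb (2 : ℕ) ((2 * (S * W + n) : ℕ) : ℝ) := by
          apply Real.logb_nonneg (by norm_num)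
          have : 1 ≤ 2 * (S * W + n) := by omega
          exact_mod_cast this
        have h3 := Nat.ceil_lt_add_one h2
        have h4 : Real.logb (2 : ℕ) ((2 * (S * W + n) : ℕ) : ℝ) =
            Real.logb 2 ((2 * (S * W + n) : ℕ) : ℝ) := by norm_num
        rw [← h4]
        exact h3.le
      have e2 : Real.logb 2 ((2 * (S * W + n) : ℕ) : ℝ) ≤ Real.logb 2 (2 * (n / δ) ^ 3) := by
        apply Real.logb_le_logb_of_le (by norm_num)
        · have : 1 ≤ 2 * (S * W + n) := by omega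
          have : (1 : ℝ) ≤ ((2 * (S * W + n) : ℕ) : ℝ) := by exact_mod_cast this
          linarith
        · push_cast
          have f1 : (n : ℝ) ≤ n / δ := by
            rw [le_div_iff₀ hδ]
            nlinarith
          have f2 : (n : ℝ) ^ 3 ≤ (n / δ) ^ 3 := pow_le_pow_left₀ (by linarith) f1 3
          have f3 : (S : ℝ) * W + n ≤ (n : ℝ) ^ 3 := by
            calc (S : ℝ) * W + n ≤ (S + n) * W := by nlinarith
              _ ≤ n ^ 2 * n := mul_le_mul hS1.le hW3 (by linarith) (by positivity)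
              _ = _ := by ring
          linarith
      have e3 : Real.logb 2 (2 * (n / δ) ^ 3) = 1 + 3 * L := by
        rw [Real.logb_mul (by norm_num) (by positivity), Real.logb_pow, hL,
          Real.logb_self_eq_one (by norm_num)]
        norm_num
      rw [e3] at e2
      linarith
    have h8 : 2 * ((8 : ℝ) ^ h * h) ≤ 16 ^ h := by
      have e1 : 2 * h ≤ 2 ^ h := by
        obtain ⟨m, rfl⟩ : ∃ m, h = m + 1 := ⟨h - 1, by omega⟩
        have := Nat.lt_two_pow_self (n := m)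
        rw [pow_succ]
        omega
      have e2 : (2 : ℝ) * h ≤ 2 ^ h := by exact_mod_cast e1
      have e3 : (16 : ℝ) ^ h = 8 ^ h * 2 ^ h := by rw [← mul_pow]; norm_num
      rw [e3]
      have : (0 : ℝ) < 8 ^ h := by positivity
      nlinarith
    have hL0 : 0 ≤ L := by linarith
    calc δ ^ 2 * (n : ℝ) ^ (1 + 1 / (h : ℝ))
        ≤ 576 * 8 ^ h * h * Real.logb 2 (4 * n * (W : ℝ) ^ (2 * h) / δ) *
          (Nat.clog 2 (2 * (S * W + n)) : ℝ) * ((S : ℝ) + n) * (W : ℝ) ^ (4 * h + 1) := hp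
      _ ≤ 576 * 8 ^ h * h * (3 * L) * (4 * L) * ((S : ℝ) + n) * (W : ℝ) ^ (4 * h + 1) := by
          gcongr
      _ = 3456 * (2 * (8 ^ h * h)) * (W : ℝ) ^ (4 * h + 1) * ((S : ℝ) + n) * L ^ 2 := by ring
      _ ≤ 3456 * 16 ^ h * (W : ℝ) ^ (4 * h + 1) * ((S : ℝ) + n) * L ^ 2 := by
          gcongr
      _ ≤ _ := by
          gcongr
          norm_num

end Pool.Agent.K1H39.TS
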