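import Pool.Agent.K1H39.TS.Core

set_option autoImplicit false

/-!
# The advantage of products of memory bits: the bound
-/

namespace Pool.Agent.K1H39.TS

open Finset
open Pool.Agent.R563.TP (sg mom)
open scoped Classical

variable {U I G : Type} [Fintype U] [Fintype I] [Fintype G] [AddCommGroup G] {h l : ℕ}

/-- the bound for fixed shifts -/
lemma upper (a b : I → G → Fin h → U) (hab : ∀ i g j, a i g j ≠ b i g j)
    (σ : I → G → ℝ) (hσ : ∀ i g, |σ i g| ≤ 1) (κ ρ : ℝ) (r : I → G)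
    (x : (G → Bool) → U → ℝ) (hx : ∀ β u, x β u ^ 2 = 1) (r' : ℕ)
    (hr' : 1 ≤ r') (hκ : 0 < κ) (hρ0 : 0 < ρ) (hκρ : 2 ^ r' * κ ≤ ρ)
    (hX : Fintype.card (X U h l) ≤ 2 ^ (2 ^ r')) (hX0 : 0 < Fintype.card (X U h l)) :
    ∑ β : G → Bool, ∑ T : X U h l, ∑ T', cF (x β) T *
        (∑ g, sg (β g) * Cm a b σ κ ρ r g T T') * cF (x β) T' ≤
      (∑ T : X U h l, (1 + Dg a b T / ρ)) * 2 ^ (Fintype.card G) *
        Real.sqrt (16 * ρ * κ * 2 ^ r') := by
  set E : ℝ := ∑ β : G → Bool, ∑ T : X U h l, ∑ T', cF (x β) T *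
        (∑ g, sg (β g) * Cm a b σ κ ρ r g T T') * cF (x β) T' with hE
  set M : ℝ := ∑ T : X U h l, (1 + Dg a b T / ρ) with hM
  have hL : ∀ T : X U h l, 1 ≤ 1 + Dg a b T / ρ := by
    intro T
    have : 0 ≤ Dg a b T / ρ := div_nonneg (Dg_nonneg a b T) hρ0.le
    linarith
  have hMpos : 0 < M := by
    have h1 : ∑ _T : X U h l, (1 : ℝ) ≤ M := sum_le_sum fun T _ => hL T
    rw [sum_const, nsmul_eq_mul, mul_one, card_univ] at h1
    have h2 : (0 : ℝ) < Fintype.card (X U h l) := by exact_mod_cast hX0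
    linarith
  rcases le_or_gt E 0 with h0 | h0
  · exact h0.trans (by positivity)
  set c : ℝ := M * 2 ^ (Fintype.card G) with hc
  have hcpos : 0 < c := by positivity
  have hm := mom (X U h l) G (Cm a b σ κ ρ r) (fun T => 1 + Dg a b T / ρ) ρ κ M (E / c) r'
    (fun β => cF (x β)) ?_ (fun T => lt_of_lt_of_le one_pos (hL T)) hκ (by positivity) hMpos hr'
    ?_ ?_ hκρ hX ?_ ?_
  · have h1 : E / c ≤ Real.sqrt (16 * ρ * κ * 2 ^ r') := Real.le_sqrt_of_sq_le hm
    rw [div_le_iff₀ hcpos] at h1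
    rw [mul_comm]
    exact h1
  · intro g T T'
    unfold Cm
    by_cases hb : Bad a b κ ρ r T ∨ Bad a b κ ρ r T'
    · rw [if_pos hb, if_pos hb.symm]
    · rw [if_neg hb, if_neg fun hh => hb hh.symm]
      exact sum_congr rfl fun i _ => by rw [A_symm _ _ (fun j => hab _ _ j)]
  · intro T
    calc ∑ g, ∑ T', |Cm a b σ κ ρ r g T T'| ≤ ∑ g, dg a b r g T := by
          refine sum_le_sum fun g _ => (Cm_abs a b σ hσ κ ρ r g T).trans ?_
          split_ifs
          · exact sum_nonneg fun i _ => w_nonneg _ _ _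
          · exact le_rfl
      _ = Dg a b T := dg_sum a b r T
      _ ≤ ρ * (1 + Dg a b T / ρ) := by
          rw [mul_add, mul_div_cancel₀ _ hρ0.ne']
          linarith
  · intro T g
    refine (Cm_abs a b σ hσ κ ρ r g T).trans ?_
    split_ifs with hb
    · exact mul_nonneg hκ.le (le_trans zero_le_one (hL T))
    · unfold Bad at hb
      push Not at hb
      exact hb g
  · intro β
    rw [hM]
    refine le_of_eq (sum_congr rfl fun T _ => ?_)
    rw [cF_sq _ (hx β), mul_one]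
  · refine le_of_eq ?_
    rw [hc]
    have := hMpos.ne'
    field_simp
    rfl

theorem core (hh : 1 ≤ h) (hl : 1 ≤ l) (a b : I → G → Fin h → U)
    (hab : ∀ i g j, a i g j ≠ b i g j) (σ : I → G → ℝ) (hσ : ∀ i g, |σ i g| ≤ 1)
    (x : (I → G) → (G → Bool) → U → ℝ) (hx : ∀ r β u, x r β u ^ 2 = 1)
    (δ κ ρ : ℝ) (r' : ℕ) (hδ : 0 < δ) (hδ1 : δ ≤ 1) (hκ : 2 ≤ κ) (hr' : 1 ≤ r')
    (hX : Fintype.card (X U h l) ≤ 2 ^ (2 ^ r')) (hX0 : 0 < Fintype.card (X U h l))
    (hρ0 : 0 < ρ) (hρG : ρ ≤ Fintype.card G)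
    (hρ : ρ * Fintype.card (X U h l) =
      2 * (((Fintype.card U - 2).choose (l - 1) : ℕ) : ℝ) ^ h *
        (Fintype.card I * Fintype.card G))
    (hκδ : 4 * Fintype.card G * 2 ^ (2 - κ) ≤ δ)
    (hsum : δ * (Fintype.card I * Fintype.card G) *
        ((Fintype.card G : ℝ) ^ (Fintype.card I) * 2 ^ (Fintype.card G)) ≤
      ∑ r : I → G, ∑ β : G → Bool, ∑ i, ∑ g, sg (β (g - r i)) * σ i g *
        ∏ j, (x r β (a i g j) * x r β (b i g j))) :
    δ ^ 2 * ρ ≤ 256 * κ * 2 ^ r' := by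
  have hκ0 : 0 < κ := by linarith
  rcases le_or_gt (2 ^ r' * κ) ρ with hκρ | hκρ
  swap
  · have h1 : δ ^ 2 ≤ 1 := pow_le_one₀ hδ.le hδ1
    have h2 : 0 < 2 ^ r' * κ := by positivity
    nlinarith
  set P : ℝ := 2 * (((Fintype.card U - 2).choose (l - 1) : ℕ) : ℝ) ^ h with hP
  set NX : ℝ := (Fintype.card (X U h l) : ℝ) with hNX
  have hNX0 : 0 < NX := Nat.cast_pos.2 hX0
  set Z : ℝ := (Fintype.card I : ℝ) * Fintype.card G with hZ
  set R : ℝ := (Fintype.card G : ℝ) ^ (Fintype.card I) with hR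
  have hGpos : 0 < (Fintype.card G : ℝ) := lt_of_lt_of_le hρ0 hρG
  have hR0 : 0 < R := by positivity
  set B : ℝ := 2 ^ (Fintype.card G) with hB
  have hB0 : 0 < B := by positivity
  have hD : ∑ T : X U h l, Dg a b T = P * Z := by
    unfold Dg
    rw [sum_comm]
    have : ∀ i : I, ∑ T : X U h l, ∑ g, w (a i g) (b i g) T = Fintype.card G * P := by
      intro i
      rw [sum_comm, sum_congr rfl fun g _ => w_sum hl (a i g) (b i g) (fun j => hab i g j),
        sum_const, nsmul_eq_mul, card_univ]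
    rw [sum_congr rfl fun i _ => this i, sum_const, nsmul_eq_mul, card_univ, hZ]
    ring
  have hM : ∑ T : X U h l, (1 + Dg a b T / ρ) = 2 * NX := by
    rw [sum_add_distrib, sum_const, nsmul_eq_mul, mul_one, card_univ, ← sum_div, hD, ← hρ]
    field_simp
    ring
  set s : ℝ := Real.sqrt (16 * ρ * κ * 2 ^ r') with hs
  have hs0 : 0 ≤ s := Real.sqrt_nonneg _
  -- upper bound
  have h1 : ∀ r : I → G, ∑ β : G → Bool, ∑ T : X U h l, ∑ T', cF (x r β) T *
        (∑ g, sg (β g) * Cm a b σ κ ρ r g T T') * cF (x r β) T' ≤ 2 * NX * B * s := by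
    intro r
    have := upper a b hab σ hσ κ ρ r (x r) (hx r) r' hr' hκ0 hρ0 hκρ hX hX0
    rwa [hM] at this
  have h2 : ∑ r : I → G, ∑ β : G → Bool, (P * (∑ i, ∑ g, sg (β (g - r i)) * σ i g *
        ∏ j, (x r β (a i g j) * x r β (b i g j))) -
      2 * ∑ T : X U h l, (if Bad a b κ ρ r T then Dg a b T else 0)) ≤ R * (2 * NX * B * s) := by
    calc _ ≤ ∑ r : I → G, ∑ β : G → Bool, ∑ T : X U h l, ∑ T', cF (x r β) T *
          (∑ g, sg (β g) * Cm a b σ κ ρ r g T T') * cF (x r β) T' :=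
          sum_le_sum fun r _ => sum_le_sum fun β _ => lower hl a b hab σ hσ κ ρ r β (x r β) (hx r β)
      _ ≤ ∑ _r : I → G, 2 * NX * B * s := sum_le_sum fun r _ => h1 r
      _ = _ := by
          rw [sum_const, nsmul_eq_mul, card_univ, Fintype.card_fun]
          push_cast
          rfl
  have h3 : ∑ r : I → G, ∑ _β : G → Bool,
      2 * ∑ T : X U h l, (if Bad a b κ ρ r T then Dg a b T else 0) ≤
      B * (2 * (Fintype.card G * 2 ^ (2 - κ) * R * (P * Z))) := by
    have f1 : ∀ r : I → G, ∑ _β : G → Bool,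
        2 * ∑ T : X U h l, (if Bad a b κ ρ r T then Dg a b T else 0) =
        B * (2 * ∑ T : X U h l, (if Bad a b κ ρ r T then Dg a b T else 0)) := by
      intro r
      rw [sum_const, nsmul_eq_mul, card_univ, Fintype.card_fun, Fintype.card_bool]
      push_cast
      rfl
    simp only [f1]
    rw [← mul_sum, ← mul_sum, sum_comm]
    refine mul_le_mul_of_nonneg_left (mul_le_mul_of_nonneg_left ?_ (by norm_num)) hB0.le
    have f2 : ∀ T : X U h l, ∑ r : I → G, (if Bad a b κ ρ r T then Dg a b T else 0) ≤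
        Fintype.card G * 2 ^ (2 - κ) * R * Dg a b T := by
      intro T
      rw [← sum_filter, sum_const, nsmul_eq_mul]
      exact mul_le_mul_of_nonneg_right (bad_count hh a b κ ρ hρ0 hρG hκ T) (Dg_nonneg a b T)
    refine (sum_le_sum fun T _ => f2 T).trans (le_of_eq ?_)
    rw [← mul_sum, hD]
  have h4 : P * (δ * Z * (R * B)) ≤ R * (2 * NX * B * s) +
      B * (2 * (Fintype.card G * 2 ^ (2 - κ) * R * (P * Z))) := by
    have f1 : ∑ r : I → G, ∑ β : G → Bool, (P * (∑ i, ∑ g, sg (β (g - r i)) * σ i g *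
        ∏ j, (x r β (a i g j) * x r β (b i g j))) -
      2 * ∑ T : X U h l, (if Bad a b κ ρ r T then Dg a b T else 0)) =
      P * (∑ r : I → G, ∑ β : G → Bool, ∑ i, ∑ g, sg (β (g - r i)) * σ i g *
        ∏ j, (x r β (a i g j) * x r β (b i g j))) - ∑ r : I → G, ∑ _β : G → Bool,
      2 * ∑ T : X U h l, (if Bad a b κ ρ r T then Dg a b T else 0) := by
      simp only [sum_sub_distrib, mul_sum]
    rw [f1] at h2
    have f2 : P * (δ * Z * (R * B)) ≤ P * (∑ r : I → G, ∑ β : G → Bool, ∑ i, ∑ g,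
        sg (β (g - r i)) * σ i g * ∏ j, (x r β (a i g j) * x r β (b i g j))) :=
      mul_le_mul_of_nonneg_left hsum (by positivity)
    linarith
  have h5 : P * Z = ρ * NX := hρ.symm
  have h6 : δ * ρ ≤ 2 * s + 2 * (Fintype.card G * 2 ^ (2 - κ)) * ρ := by
    have f1 : (R * B * NX) * (δ * ρ) ≤ (R * B * NX) *
        (2 * s + 2 * (Fintype.card G * 2 ^ (2 - κ)) * ρ) := by
      calc (R * B * NX) * (δ * ρ) = P * (δ * Z * (R * B)) := by
            rw [show P * (δ * Z * (R * B)) = δ * (P * Z) * (R * B) by ring, h5]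
            ring
        _ ≤ _ := h4
        _ = _ := by
            rw [h5]
            ring
    exact le_of_mul_le_mul_left f1 (by positivity)
  have h7 : δ * ρ ≤ 4 * s := by
    have f1 : 2 * (Fintype.card G * 2 ^ (2 - κ)) * ρ ≤ δ / 2 * ρ := by
      refine mul_le_mul_of_nonneg_right ?_ hρ0.le
      linarith
    linarith
  have h8 : (δ * ρ) ^ 2 ≤ (4 * s) ^ 2 := pow_le_pow_left₀ (by positivity) h7 2
  rw [mul_pow 4 s, hs, Real.sq_sqrt (by positivity)] at h8
  have h9 : ρ * (δ ^ 2 * ρ) ≤ ρ * (256 * κ * 2 ^ r') := by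
    calc ρ * (δ ^ 2 * ρ) = (δ * ρ) ^ 2 := by ring
      _ ≤ _ := h8
      _ = _ := by ring
  exact le_of_mul_le_mul_left h9 hρ0

end Pool.Agent.K1H39.TS
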